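import Mathlib

/-!
Vanishing sums of roots of unity needed for the spectrum of L(m,n).
-/

namespace Pool.Agent.Work.MP_34e3ac_co

open Finset Polynomial

/-- Decompose a sum over `range (q * K)` into residue classes modulo `q`. -/
lemma sum_range_classes {α : Type*} [AddCommMonoid α] (q K : ℕ) (g : ℕ → α) :
    ∑ r ∈ range (q * K), g r = ∑ i ∈ range q, ∑ r ∈ range K, g (i + q * r) := by
  rw [Finset.sum_comm]
  induction K with
  | zero => simp
  | succ K ih =>
    rw [Nat.mul_succ, Finset.sum_range_add, ih, Finset.sum_range_succ]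
    congr 1
    refine Finset.sum_congr rfl fun i _ => ?_
    rw [add_comm]

/-- Galois conjugation for integer combinations of roots of unity. -/
lemma conj_vanish {M : ℕ} (hM : 0 < M) {ω : ℂ} (hω : IsPrimitiveRoot ω M) (a : ℕ → ℤ)
    (h : ∑ r ∈ range M, (a r : ℂ) * ω ^ r = 0) {t : ℕ} (ht : t.Coprime M) :
    ∑ r ∈ range M, (a r : ℂ) * (ω ^ t) ^ r = 0 := by
  set f : ℤ[X] := ∑ r ∈ range M, C (a r) * X ^ r with hfdef
  have hf : ∀ z : ℂ, aeval z f = ∑ r ∈ range M, (a r : ℂ) * z ^ r := by
    intro z
    simp [hfdef, map_sum]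
  have h1 : minpoly ℤ ω ∣ f :=
    minpoly.isIntegrallyClosed_dvd (hω.isIntegral hM) (by rw [hf]; exact h)
  rw [← hf]
  obtain ⟨g, hg⟩ := h1
  rw [hg, hω.minpoly_eq_pow_coprime ht]
  simp [minpoly.aeval]

lemma class_norm {K q : ℕ} (hK : 0 < K) (hq : q.Prime) {ω : ℂ}
    (hω : IsPrimitiveRoot ω (q * K)) (a : ℕ → ℤ)
    (h : ∑ r ∈ range (q * K), (a r : ℂ) * ω ^ r = 0) :
    ∃ c : ℝ, (∀ i < q, ‖∑ r ∈ range K, (a (i + q * r) : ℂ) * (ω ^ q) ^ r‖ = c) ∧
      (q ∣ K → c = 0) := by
  have hM : 0 < q * K := Nat.mul_pos hq.pos hK
  have hω1 : ω ^ (q * K) = 1 := hω.pow_eq_one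
  have hω0 : ω ≠ 0 := hω.ne_zero hM.ne'
  obtain ⟨ζ, hζdef⟩ : ∃ ζ : ℂ, ζ = ω ^ K := ⟨_, rfl⟩
  have hζ : IsPrimitiveRoot ζ q := hζdef ▸ hω.pow hM (by ring)
  have hζn : ‖ζ‖ = 1 := hζ.norm'_eq_one hq.ne_zero
  have hωn : ‖ω‖ = 1 := hω.norm'_eq_one hM.ne'
  set T : ℕ → ℂ := fun i => ∑ r ∈ range K, (a (i + q * r) : ℂ) * (ω ^ q) ^ r with hTdef
  set G : ℕ → ℂ := fun s => ∑ r ∈ range (q * K), (a r : ℂ) * (ω ^ (1 + K * s)) ^ r with hGdef
  have hG : ∀ s, G s = ∑ i ∈ range q, ζ ^ (s * i) * (ω ^ i * T i) := by
    intro s
    simp only [hGdef, hTdef]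
    rw [sum_range_classes]
    refine Finset.sum_congr rfl fun i _ => ?_
    rw [Finset.mul_sum, Finset.mul_sum]
    refine Finset.sum_congr rfl fun r _ => ?_
    have e1 : (ω ^ (1 + K * s)) ^ (i + q * r) = ζ ^ (s * i) * ω ^ i * (ω ^ q) ^ r := by
      rw [hζdef, ← pow_mul, ← pow_mul, ← pow_mul]
      have : (1 + K * s) * (i + q * r) = K * (s * i) + i + q * r + (q * K) * (s * r) := by ring
      rw [this, pow_add, pow_add, pow_add, pow_mul ω (q * K), hω1, one_pow, mul_one]
    rw [e1]
    ring
  have hinv : ∀ i0 < q, (q : ℂ) * (ω ^ i0 * T i0) =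
      ∑ s ∈ range q, ζ ^ (s * (q - i0)) * G s := by
    intro i0 hi0
    have : ∑ s ∈ range q, ζ ^ (s * (q - i0)) * G s
        = ∑ i ∈ range q, (∑ s ∈ range q, (ζ ^ (i + (q - i0))) ^ s) * (ω ^ i * T i) := by
      simp only [hG, Finset.mul_sum, Finset.sum_mul]
      rw [Finset.sum_comm]
      refine Finset.sum_congr rfl fun i _ => Finset.sum_congr rfl fun s _ => ?_
      rw [← pow_mul, ← mul_assoc, ← pow_add]
      congr 2
      ring
    rw [this, Finset.sum_eq_single i0]
    · have : ζ ^ (i0 + (q - i0)) = 1 := by
        rw [Nat.add_sub_cancel' hi0.le, hζ.pow_eq_one]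
      simp [this]
    · intro i hi hne
      have hi' : i < q := Finset.mem_range.mp hi
      have h1 : ζ ^ (i + (q - i0)) ≠ 1 := by
        intro h1
        have hd := hζ.dvd_of_pow_eq_one _ h1
        have : i + (q - i0) = q ∨ i + (q - i0) < q ∨ (q < i + (q - i0) ∧ i + (q - i0) < 2 * q) := by
          omega
        rcases this with h | h | ⟨h, h'⟩
        · omega
        · exact absurd (Nat.le_of_dvd (by omega) hd) (by omega)
        · obtain ⟨k, hk⟩ := hd
          have hk1 : 1 < k := by
            by_contra hk1
            interval_cases k <;> omega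
          have : 2 * q ≤ q * k := by nlinarith
          omega
      have h2 : ∑ s ∈ range q, (ζ ^ (i + (q - i0))) ^ s = 0 := by
        have h3 := mul_neg_geom_sum (ζ ^ (i + (q - i0))) q
        have h4 : (ζ ^ (i + (q - i0))) ^ q = 1 := by
          rw [← pow_mul, mul_comm (i + (q - i0)) q, pow_mul, hζ.pow_eq_one, one_pow]
        rw [h4, sub_self] at h3
        exact (mul_eq_zero.mp h3).resolve_left (sub_ne_zero.mpr (Ne.symm h1))
      rw [h2, zero_mul]
    · intro h
      exact absurd (Finset.mem_range.mpr hi0) h
  have hgood : ∀ s, (1 + K * s).Coprime (q * K) → G s = 0 := by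
    intro s hs
    exact conj_vanish hM hω a h hs
  have hcopK : ∀ s, (1 + K * s).Coprime K := by
    intro s
    simp
  have hcop : ∀ s, (1 + K * s).Coprime q → (1 + K * s).Coprime (q * K) := by
    intro s hs
    exact Nat.Coprime.mul_right hs (hcopK s)
  by_cases hall : ∀ s < q, (1 + K * s).Coprime q
  · refine ⟨0, ?_, fun _ => rfl⟩
    intro i hi
    have h1 := hinv i hi
    rw [Finset.sum_eq_zero (fun s hs => by
      rw [hgood s (hcop s (hall s (Finset.mem_range.mp hs))), mul_zero])] at h1
    have hq0 : (q : ℂ) ≠ 0 := Nat.cast_ne_zero.mpr hq.ne_zero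
    have h2 := (mul_eq_zero.mp h1).resolve_left hq0
    have h3 := (mul_eq_zero.mp h2).resolve_left (pow_ne_zero _ hω0)
    rw [norm_eq_zero]
    exact h3
  · push Not at hall
    obtain ⟨s0, hs0, hs0c⟩ := hall
    have hqdvd : ∀ s, ¬ (1 + K * s).Coprime q → q ∣ 1 + K * s := by
      intro s hs
      rw [Nat.coprime_comm, hq.coprime_iff_not_dvd, not_not] at hs
      exact hs
    have hqK : ¬ q ∣ K := by
      intro hd
      have h1 := hqdvd s0 hs0c
      have h2 : q ∣ K * s0 := Dvd.dvd.mul_right hd s0
      have h3 : q ∣ 1 := (Nat.dvd_add_left h2).mp h1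
      exact hq.one_lt.ne' (Nat.dvd_one.mp h3)
    have huniq : ∀ s < q, s ≠ s0 → (1 + K * s).Coprime q := by
      intro s hs hne
      by_contra hcon
      have h1 := hqdvd s hcon
      have h2 := hqdvd s0 hs0c
      have h1' : (q : ℤ) ∣ ((1 + K * s : ℕ) : ℤ) := Int.natCast_dvd_natCast.mpr h1
      have h2' : (q : ℤ) ∣ ((1 + K * s0 : ℕ) : ℤ) := Int.natCast_dvd_natCast.mpr h2
      have h3 : (q : ℤ) ∣ (K : ℤ) * ((s : ℤ) - s0) := by
        have := dvd_sub h1' h2'
        push_cast at this
        have e : (1 + (K : ℤ) * s) - (1 + (K : ℤ) * s0) = (K : ℤ) * ((s : ℤ) - s0) := by ring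
        rwa [e] at this
      have hqp : Prime (q : ℤ) := Nat.prime_iff_prime_int.mp hq
      rcases hqp.dvd_or_dvd h3 with h4 | h4
      · exact hqK (Int.natCast_dvd_natCast.mp h4)
      · have h5 : |(s : ℤ) - s0| < q := by
          rw [abs_lt]; constructor <;> omega
        have h6 := Int.eq_zero_of_abs_lt_dvd h4 h5
        omega
    refine ⟨‖G s0‖ / q, ?_, fun hd => absurd hd hqK⟩
    intro i hi
    have h1 := hinv i hi
    rw [Finset.sum_eq_single s0 (fun s hs hne => by
      rw [hgood s (hcop s (huniq s (Finset.mem_range.mp hs) hne)), mul_zero])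
      (fun hn => absurd (Finset.mem_range.mpr hs0) hn)] at h1
    have h2 := congrArg norm h1
    rw [norm_mul, norm_mul, norm_mul, norm_pow, norm_pow, hωn, hζn, one_pow, one_pow, one_mul,
      one_mul] at h2
    have hq0 : (0 : ℝ) < q := Nat.cast_pos.mpr hq.pos
    rw [Complex.norm_natCast] at h2
    rw [eq_div_iff hq0.ne', mul_comm]
    exact h2


/-- An integer relation of small weight between roots of unity of order `M` is trivial. -/
lemma small_vanish : ∀ M : ℕ, 0 < M → ∀ w : ℕ, (∀ p, p.Prime → p ∣ M → w < p) →
    ∀ ω : ℂ, IsPrimitiveRoot ω M → ∀ a : ℕ → ℤ, (∑ r ∈ range M, (a r : ℂ) * ω ^ r = 0) →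
    (∑ r ∈ range M, |a r| ≤ w) → ∀ r < M, a r = 0 := by
  intro M
  induction M using Nat.strong_induction_on with
  | _ M ih =>
    intro hM w hw ω hω a h hl r hr
    by_cases hM1 : M = 1
    · subst hM1
      have : r = 0 := by omega
      subst this
      simpa using h
    · obtain ⟨q, hq, K, rfl⟩ : ∃ q : ℕ, q.Prime ∧ ∃ K, M = q * K := by
        obtain ⟨q, hq, hd⟩ := Nat.exists_prime_and_dvd hM1
        exact ⟨q, hq, hd⟩
      have hK : 0 < K := Nat.pos_of_mul_pos_left hM
      obtain ⟨c, hc, -⟩ := class_norm hK hq hω a h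
      rw [sum_range_classes] at hl
      by_cases hc0 : c = 0
      · have hi : r % q < q := Nat.mod_lt _ hq.pos
        have hT : ∑ s ∈ range K, (a (r % q + q * s) : ℂ) * (ω ^ q) ^ s = 0 := by
          have := hc _ hi
          rw [hc0, norm_eq_zero] at this
          exact this
        have hKlt : K < q * K := by nlinarith [hq.two_le]
        have hrK : r / q < K := Nat.div_lt_of_lt_mul hr
        have hl' : ∑ s ∈ range K, |a (r % q + q * s)| ≤ w := by
          refine le_trans ?_ hl
          exact Finset.single_le_sum (f := fun i => ∑ s ∈ range K, |a (i + q * s)|)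
            (fun i _ => Finset.sum_nonneg fun s _ => abs_nonneg _) (Finset.mem_range.mpr hi)
        have := ih K hKlt hK w (fun p hp hd => hw p hp (Dvd.dvd.mul_left hd q)) (ω ^ q)
          (hω.pow hM rfl) (fun s => a (r % q + q * s)) hT hl' (r / q) hrK
        have e : r % q + q * (r / q) = r := Nat.mod_add_div r q
        simpa [e] using this
      · exfalso
        have h1 : ∀ i ∈ range q, (1 : ℤ) ≤ ∑ s ∈ range K, |a (i + q * s)| := by
          intro i hi
          by_contra hcon
          have h0 : ∑ s ∈ range K, |a (i + q * s)| = 0 :=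
            le_antisymm (by omega) (Finset.sum_nonneg fun s _ => abs_nonneg _)
          rw [Finset.sum_eq_zero_iff_of_nonneg (fun s _ => abs_nonneg _)] at h0
          apply hc0
          rw [← hc i (Finset.mem_range.mp hi), norm_eq_zero]
          refine Finset.sum_eq_zero fun s hs => ?_
          rw [abs_eq_zero.mp (h0 s hs)]
          simp
        have h2 := Finset.sum_le_sum h1
        simp only [Finset.sum_const, Finset.card_range, nsmul_eq_mul, mul_one] at h2
        have h3 := hw q hq (Dvd.intro K rfl)
        omega

/-- A symmetric integer relation without constant term, of weight at most `2 * m` with `m`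
smaller than every prime factor of the (odd) order, is trivial. -/
lemma sym_vanish : ∀ M : ℕ, 0 < M → Odd M → ∀ m : ℕ, (∀ p, p.Prime → p ∣ M → m < p) →
    ∀ ω : ℂ, IsPrimitiveRoot ω M → ∀ a : ℕ → ℤ, (∑ r ∈ range M, (a r : ℂ) * ω ^ r = 0) →
    (∑ r ∈ range M, |a r| ≤ 2 * m) → a 0 = 0 → (∀ r, 0 < r → r < M → a (M - r) = a r) →
    ∀ r < M, a r = 0 := by
  intro M
  induction M using Nat.strong_induction_on with
  | _ M ih =>
    intro hM hodd m hm ω hω a h hl ha0 hsym r hr
    by_cases hM1 : M = 1
    · subst hM1
      have : r = 0 := by omega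
      subst this
      exact ha0
    · -- take the largest prime factor
      obtain ⟨q, hq, hqM, hqmax⟩ : ∃ q : ℕ, q.Prime ∧ q ∣ M ∧ ∀ p, p.Prime → p ∣ M → p ≤ q := by
        have hne : M.primeFactors.Nonempty := Nat.nonempty_primeFactors.mpr (by omega)
        obtain ⟨q, hqmem, hqmax⟩ := Finset.exists_max_image M.primeFactors id hne
        refine ⟨q, Nat.prime_of_mem_primeFactors hqmem, Nat.dvd_of_mem_primeFactors hqmem, ?_⟩
        intro p hp hd
        exact hqmax p (Nat.mem_primeFactors.mpr ⟨hp, hd, hM.ne'⟩)
      obtain ⟨K, rfl⟩ := hqM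
      have hK : 0 < K := Nat.pos_of_mul_pos_left hM
      have hqodd : Odd q := (Nat.odd_mul.mp hodd).1
      have hKodd : Odd K := (Nat.odd_mul.mp hodd).2
      obtain ⟨c, hc, hcK⟩ := class_norm hK hq hω a h
      have hη : IsPrimitiveRoot (ω ^ q) K := hω.pow hM rfl
      rw [sum_range_classes] at hl
      -- weights of classes
      obtain ⟨n, hn⟩ : ∃ n : ℕ → ℤ, ∀ i, n i = ∑ s ∈ range K, |a (i + q * s)| := ⟨_, fun _ => rfl⟩
      have hnn : ∀ i, 0 ≤ n i := fun i => by
        rw [hn]; exact Finset.sum_nonneg fun s _ => abs_nonneg _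
      have hl2 : ∑ i ∈ range q, n i ≤ 2 * m := by
        simpa [hn] using hl
      have hmq : m < q := hm q hq (Dvd.intro K rfl)
      -- symmetry of class 0
      have hsym0 : ∀ s, 0 < s → s < K → a (0 + q * (K - s)) = a (0 + q * s) := by
        intro s hs hsK
        have h1 := hsym (q * s) (Nat.mul_pos hq.pos hs) (Nat.mul_lt_mul_of_pos_left hsK hq.pos)
        rw [← Nat.mul_sub] at h1
        simpa using h1
      by_cases hc0 : c = 0
      · have hKlt : K < q * K := by nlinarith [hq.two_le]
        have hi : r % q < q := Nat.mod_lt _ hq.pos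
        have hrK : r / q < K := Nat.div_lt_of_lt_mul hr
        have e : r % q + q * (r / q) = r := Nat.mod_add_div r q
        have hT : ∀ i < q, ∑ s ∈ range K, (a (i + q * s) : ℂ) * (ω ^ q) ^ s = 0 := by
          intro i hi
          have := hc _ hi
          rw [hc0, norm_eq_zero] at this
          exact this
        by_cases hr0 : r % q = 0
        · have h0 : n 0 ≤ 2 * m := by
            refine le_trans ?_ hl2
            exact Finset.single_le_sum (fun i _ => hnn i) (Finset.mem_range.mpr hq.pos)
          have := ih K hKlt hK hKodd m (fun p hp hd => hm p hp (Dvd.dvd.mul_left hd q)) (ω ^ q)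
            hη (fun s => a (0 + q * s)) (hT 0 hq.pos) (by simpa [hn] using h0)
            (by simpa using ha0) hsym0 (r / q) hrK
          have e' : 0 + q * (r / q) = r := by rw [← hr0]; exact e
          simpa [e'] using this
        · -- pair the classes i and q - i
          have hi0 : 0 < r % q := Nat.pos_of_ne_zero hr0
          have hpair : n (q - r % q) = n (r % q) := by
            rw [hn, hn, ← Finset.sum_range_reflect (fun s => |a (r % q + q * s)|)]
            refine Finset.sum_congr rfl fun s hs => ?_
            have hsK : s < K := Finset.mem_range.mp hs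
            have h1 := hsym (r % q + q * (K - 1 - s)) (by omega) (by
              have h2 : K = (K - 1 - s) + 1 + s := by omega
              calc r % q + q * (K - 1 - s) < q + q * (K - 1 - s) := by omega
                _ ≤ q * K := by
                  conv_rhs => rw [h2]
                  nlinarith)
            have h3 : q * K - (r % q + q * (K - 1 - s)) = q - r % q + q * s := by
              have h2 : K = (K - 1 - s) + 1 + s := by omega
              have h4 : q * K = q * (K - 1 - s) + q + q * s := by
                conv_lhs => rw [h2]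
                ring
              rw [h4]
              omega
            rw [h3] at h1
            rw [h1]
          have hne : q - r % q ≠ r % q := by
            intro hcon
            obtain ⟨k, hk⟩ := hqodd
            omega
          have h2n : n (r % q) + n (q - r % q) ≤ 2 * m := by
            refine le_trans ?_ hl2
            have hsub : ({r % q, q - r % q} : Finset ℕ) ⊆ range q := by
              intro x hx
              simp only [Finset.mem_insert, Finset.mem_singleton] at hx
              rw [Finset.mem_range]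
              rcases hx with rfl | rfl <;> omega
            have := Finset.sum_le_sum_of_subset_of_nonneg hsub (f := n) (fun i _ _ => hnn i)
            rwa [Finset.sum_pair (Ne.symm hne)] at this
          have hnm : n (r % q) ≤ m := by omega
          rw [hn] at hnm
          have := small_vanish K hK m (fun p hp hd => hm p hp (Dvd.dvd.mul_left hd q)) (ω ^ q) hη
            (fun s => a (r % q + q * s)) (hT _ hi) hnm (r / q) hrK
          simpa [e] using this
      · exfalso
        have hqK : ¬ q ∣ K := fun hd => hc0 (hcK hd)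
        have hn1 : ∀ i < q, (1 : ℤ) ≤ n i := by
          intro i hi
          by_contra hcon
          have h0 : ∑ s ∈ range K, |a (i + q * s)| = 0 := by
            rw [← hn]
            have := hnn i
            omega
          rw [Finset.sum_eq_zero_iff_of_nonneg (fun s _ => abs_nonneg _)] at h0
          apply hc0
          rw [← hc i hi, norm_eq_zero]
          refine Finset.sum_eq_zero fun s hs => ?_
          rw [abs_eq_zero.mp (h0 s hs)]
          simp
        have hq0 : q = (q - 1) + 1 := by have := hq.pos; omega
        have hsplit : ∑ i ∈ range q, n i = n 0 + ∑ i ∈ range (q - 1), n (i + 1) := by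
          conv_lhs => rw [hq0]
          rw [Finset.sum_range_succ', add_comm]
        -- some class has weight one
        obtain ⟨i, hiq, hi1⟩ : ∃ i < q, n i = 1 := by
          by_contra hcon
          push Not at hcon
          have h2 : ∀ i ∈ range (q - 1), (2 : ℤ) ≤ n (i + 1) := by
            intro i hi
            have hi' : i + 1 < q := by have := Finset.mem_range.mp hi; omega
            have h3 := hn1 _ hi'
            have h4 := hcon _ hi'
            omega
          have h3 := Finset.sum_le_sum h2
          simp only [Finset.sum_const, Finset.card_range, nsmul_eq_mul] at h3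
          have h4 := hn1 0 hq.pos
          have h5 : ((q - 1 : ℕ) : ℤ) = q - 1 := by
            have := hq.pos
            push_cast [Nat.cast_sub hq.one_le]
            ring
          rw [h5] at h3
          have h6 : (m : ℤ) < q := by exact_mod_cast hmq
          have h7 := hcon 0 hq.pos
          rw [hsplit] at hl2
          linarith
        -- hence c = 1
        have hηn : ‖ω ^ q‖ = 1 := hη.norm'_eq_one hK.ne'
        have hc1 : c = 1 := by
          rw [hn] at hi1
          have hex : ∃ s ∈ range K, a (i + q * s) ≠ 0 := by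
            by_contra hcon
            push Not at hcon
            rw [Finset.sum_eq_zero (fun s hs => by rw [hcon s hs, abs_zero])] at hi1
            exact absurd hi1 (by norm_num)
          obtain ⟨s0, hs0, hs0n⟩ := hex
          have habs : 1 ≤ |a (i + q * s0)| := Int.one_le_abs hs0n
          have hrest : ∀ s ∈ range K, s ≠ s0 → a (i + q * s) = 0 := by
            intro s hs hne
            by_contra hcon
            have h1 : 1 ≤ |a (i + q * s)| := Int.one_le_abs hcon
            have hsub : ({s0, s} : Finset ℕ) ⊆ range K := by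
              intro x hx
              simp only [Finset.mem_insert, Finset.mem_singleton] at hx
              rcases hx with rfl | rfl <;> assumption
            have := Finset.sum_le_sum_of_subset_of_nonneg hsub (f := fun s => |a (i + q * s)|)
              (fun i _ _ => abs_nonneg _)
            rw [Finset.sum_pair (Ne.symm hne)] at this
            omega
          have h1 : |a (i + q * s0)| = 1 := by
            rw [Finset.sum_eq_single s0 (fun s hs hne => by rw [hrest s hs hne, abs_zero])
              (fun hn => absurd hs0 hn)] at hi1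
            exact hi1
          rw [← hc i hiq, Finset.sum_eq_single s0 (fun s hs hne => by
            rw [hrest s hs hne]; simp) (fun hn => absurd hs0 hn), norm_mul, norm_pow, hηn,
            one_pow, mul_one]
          have h2 : ((|a (i + q * s0)| : ℤ) : ℝ) = 1 := by rw [h1]; norm_num
          rw [Complex.norm_intCast, ← Int.cast_abs]
          exact h2
        -- class 0 is real
        have hT0norm := hc 0 hq.pos
        rw [hc1] at hT0norm
        obtain ⟨T0, hT0⟩ : ∃ T0 : ℂ, T0 = ∑ s ∈ range K, (a (0 + q * s) : ℂ) * (ω ^ q) ^ s :=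
          ⟨_, rfl⟩
        rw [← hT0] at hT0norm
        have hK1 : K = (K - 1) + 1 := by omega
        have hreal : (starRingEnd ℂ) T0 = T0 := by
          have hconj : (starRingEnd ℂ) (ω ^ q) = (ω ^ q)⁻¹ := by
            rw [Complex.inv_eq_conj hηn]
          have hη0 : ω ^ q ≠ 0 := hη.ne_zero hK.ne'
          have hηK : (ω ^ q) ^ K = 1 := hη.pow_eq_one
          rw [hT0, map_sum]
          rw [hK1, Finset.sum_range_succ', Finset.sum_range_succ']
          congr 1
          · rw [← Finset.sum_range_reflect]
            refine Finset.sum_congr rfl fun s hs => ?_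
            have hsK : s < K - 1 := Finset.mem_range.mp hs
            have h1 := hsym0 (s + 1) (by omega) (by omega)
            have h2 : K - 1 - 1 - s + 1 = K - (s + 1) := by omega
            rw [h2, map_mul, map_pow, hconj, h1]
            rw [map_intCast]
            congr 1
            have h3 : (ω ^ q) ^ (K - (s + 1)) * (ω ^ q) ^ (s + 1) = 1 := by
              rw [← pow_add, Nat.sub_add_cancel (by omega), hηK]
            rw [inv_pow]
            rw [inv_eq_iff_eq_inv]
            exact eq_inv_of_mul_eq_one_left h3
          · simp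
        obtain ⟨x, hx⟩ := Complex.conj_eq_iff_real.mp hreal
        have hε : ∃ ε : ℤ, (ε = 1 ∨ ε = -1) ∧ T0 = (ε : ℂ) := by
          rw [hx, Complex.norm_real, Real.norm_eq_abs] at hT0norm
          rcases (abs_eq (zero_le_one)).mp hT0norm with h1 | h1
          · exact ⟨1, Or.inl rfl, by rw [hx, h1]; simp⟩
          · exact ⟨-1, Or.inr rfl, by rw [hx, h1]; simp⟩
        obtain ⟨ε, hε1, hT0ε⟩ := hε
        -- the relation over K obtained by subtracting ε
        have hb : ∃ p, p.Prime ∧ p ∣ K ∧ (p : ℤ) ≤ n 0 + 1 := by
          by_contra hcon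
          push Not at hcon
          obtain ⟨w, hw⟩ : ∃ w : ℕ, (w : ℤ) = n 0 + 1 :=
            ⟨(n 0 + 1).toNat, Int.toNat_of_nonneg (by have := hnn 0; omega)⟩
          have hb0 := small_vanish K hK w (fun p hp hd => by
            have := hcon p hp hd
            omega) (ω ^ q) hη (fun s => a (0 + q * s) - if s = 0 then ε else 0) ?_ ?_ 0 hK
          · simp only [mul_zero, add_zero, ha0, if_true, zero_sub, neg_eq_zero] at hb0
            rcases hε1 with h1 | h1 <;> omega
          · have : ∑ s ∈ range K, (((a (0 + q * s) - if s = 0 then ε else 0 : ℤ)) : ℂ) * (ω ^ q) ^ s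
                = T0 - ε := by
              rw [hT0, hK1, Finset.sum_range_succ', Finset.sum_range_succ' (fun s => (a (0 + q * s) : ℂ) * (ω ^ q) ^ s)]
              simp
              ring
            rw [this, hT0ε, sub_self]
          · have : ∑ s ∈ range K, |(a (0 + q * s) - if s = 0 then ε else 0 : ℤ)| ≤ n 0 + 1 := by
              rw [hn, hK1, Finset.sum_range_succ', Finset.sum_range_succ' (fun s => |a (0 + q * s)|)]
              simp only [mul_zero, add_zero, ha0, if_true, zero_sub, abs_neg, abs_zero]
              have : |ε| = 1 := by rcases hε1 with h1 | h1 <;> simp [h1]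
              simp [this]
            rw [hw]
            exact this
        obtain ⟨p, hp, hpK, hpn⟩ := hb
        have hpq : p ≤ q := hqmax p hp (Dvd.dvd.mul_left hpK q)
        have hpne : p ≠ q := fun hcon => hqK (hcon ▸ hpK)
        have hpodd : Odd p := Odd.of_dvd_nat hKodd hpK
        have hpq2 : p + 2 ≤ q := by
          obtain ⟨k, hk⟩ := hpodd
          obtain ⟨l, hl⟩ := hqodd
          omega
        have hmp : m < p := hm p hp (Dvd.dvd.mul_left hpK q)
        have hge : ((q - 1 : ℕ) : ℤ) ≤ ∑ i ∈ range (q - 1), n (i + 1) := by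
          have h2 : ∀ i ∈ range (q - 1), (1 : ℤ) ≤ n (i + 1) := by
            intro i hi
            exact hn1 _ (by have := Finset.mem_range.mp hi; omega)
          have h3 := Finset.sum_le_sum h2
          simpa using h3
        have h5 : ((q - 1 : ℕ) : ℤ) = q - 1 := by
          push_cast [Nat.cast_sub hq.one_le]
          ring
        rw [hsplit] at hl2
        rw [h5] at hge
        have h6 : (m : ℤ) < p := by exact_mod_cast hmp
        have h7 : (p : ℤ) + 2 ≤ q := by exact_mod_cast hpq2
        linarith

end Pool.Agent.Work.MP_34e3ac_co
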