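import Mathlib
import Pool.Agent.Work.MP_34e3ac_co.Roots

/-!
Zero sums of cosines `cos (π j / M)`.
-/

namespace Pool.Agent.Work.MP_34e3ac_co

open Finset

/-- If `M` is odd, all prime factors of `M` exceed `|S|` and the cosines sum to zero then
`|S|` is even. -/
theorem even_card_of_zero_sum {M : ℕ} (hM : Odd M) (S : Finset ℕ)
    (hS : ∀ j ∈ S, 0 < j ∧ j < M) (hp : ∀ p, p.Prime → p ∣ M → S.card < p)
    (hz : ∑ j ∈ S, Real.cos (Real.pi * j / M) = 0) : Even S.card := by
  have hM0 : 0 < M := hM.pos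
  obtain ⟨h, hh⟩ : ∃ h, 2 * h = M + 1 := by
    obtain ⟨k, hk⟩ := hM
    exact ⟨k + 1, by omega⟩
  obtain ⟨k, hk⟩ : ∃ k : ℕ → ℕ, ∀ j, k j = (j * h) % M := ⟨_, fun _ => rfl⟩
  have hkM : ∀ j, k j < M := fun j => by rw [hk]; exact Nat.mod_lt _ hM0
  -- (j h) mod M = (j' h) mod M implies M ∣ difference
  have hk0 : ∀ j, 0 < j → j < M → 0 < k j := by
    intro j hj0 hjM
    rw [Nat.pos_iff_ne_zero]
    intro hcon
    rw [hk] at hcon
    have h1 : M ∣ j * h := Nat.dvd_of_mod_eq_zero hcon
    have h2 : M ∣ j * (M + 1) := by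
      rw [← hh]
      have : j * (2 * h) = 2 * (j * h) := by ring
      rw [this]
      exact Dvd.dvd.mul_left h1 2
    have h3 : M ∣ j := by
      have h4 : j * (M + 1) = j * M + j := by ring
      rw [h4] at h2
      exact (Nat.dvd_add_right (Dvd.intro_left j rfl)).mp h2
    exact absurd (Nat.le_of_dvd hj0 h3) (by omega)
  have hkinj : ∀ j j', 0 < j → j < M → 0 < j' → j' < M → k j = k j' → j = j' := by
    intro j j' hj0 hjM hj0' hjM' he
    rw [hk, hk] at he
    have h1 : j * h ≡ j' * h [MOD M] := he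
    have h2 : j * (M + 1) ≡ j' * (M + 1) [MOD M] := by
      rw [← hh]
      have e1 : j * (2 * h) = 2 * (j * h) := by ring
      have e2 : j' * (2 * h) = 2 * (j' * h) := by ring
      rw [e1, e2]
      exact h1.mul_left 2
    have h3 : ∀ x : ℕ, x * (M + 1) ≡ x [MOD M] := by
      intro x
      have : x * (M + 1) = x + M * x := by ring
      rw [this]
      exact Nat.modEq_iff_dvd.mpr ⟨-(x : ℤ), by push_cast; ring⟩
    have h4 : j ≡ j' [MOD M] := ((h3 j).symm.trans h2).trans (h3 j')
    exact Nat.ModEq.eq_of_lt_of_lt h4 hjM hjM'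
  have hkneg : ∀ j j', 0 < j → j < M → 0 < j' → j' < M → (k j = M - k j' ↔ j' = M - j) := by
    intro j j' hj0 hjM hj0' hjM'
    have h3 : ∀ x : ℕ, x * (M + 1) ≡ x [MOD M] := by
      intro x
      have : x * (M + 1) = x + M * x := by ring
      rw [this]
      exact Nat.modEq_iff_dvd.mpr ⟨-(x : ℤ), by push_cast; ring⟩
    have hmod : ∀ x, k x ≡ x * h [MOD M] := by
      intro x; rw [hk]; exact Nat.mod_modEq _ _
    constructor
    · intro he
      have h1 : k j + k j' = M := by
        have := hkM j'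
        omega
      have h2 : (j + j') * h ≡ 0 [MOD M] := by
        have e : (j + j') * h = j * h + j' * h := by ring
        rw [e]
        refine ((hmod j).symm.add (hmod j').symm).trans ?_
        rw [h1]
        exact (Nat.modEq_zero_iff_dvd.mpr dvd_rfl)
      have h4 : (j + j') ≡ 0 [MOD M] := by
        refine (h3 (j + j')).symm.trans ?_
        rw [← hh]
        have e1 : (j + j') * (2 * h) = 2 * ((j + j') * h) := by ring
        rw [e1]
        simpa using h2.mul_left 2
      have h5 : M ∣ j + j' := Nat.modEq_zero_iff_dvd.mp h4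
      obtain ⟨c, hc⟩ := h5
      have hc1 : c = 1 := by
        rcases c with _ | _ | c
        · omega
        · rfl
        · exfalso
          have : M * 2 ≤ M * (c + 1 + 1) := Nat.mul_le_mul_left M (by omega)
          omega
      rw [hc1] at hc
      omega
    · intro he
      have h1 : j + j' = M := by omega
      have h2 : k j + k j' ≡ 0 [MOD M] := by
        refine ((hmod j).add (hmod j')).trans ?_
        rw [← add_mul, h1]
        exact Nat.modEq_zero_iff_dvd.mpr (Dvd.intro h rfl)
      have h5 : M ∣ k j + k j' := Nat.modEq_zero_iff_dvd.mp h2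
      obtain ⟨c, hc⟩ := h5
      have hc1 : c = 1 := by
        have ha := hk0 j hj0 hjM
        have hb := hkM j
        have hb' := hkM j'
        rcases c with _ | _ | c
        · omega
        · rfl
        · exfalso
          have : M * 2 ≤ M * (c + 1 + 1) := Nat.mul_le_mul_left M (by omega)
          omega
      rw [hc1] at hc
      omega
  -- the roots of unity
  obtain ⟨ξ, hξ⟩ : ∃ ξ : ℂ, ξ = Complex.exp (Real.pi * Complex.I / M) := ⟨_, rfl⟩
  have hMc : (M : ℂ) ≠ 0 := Nat.cast_ne_zero.mpr hM0.ne'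
  have hξM : ξ ^ M = -1 := by
    rw [hξ, ← Complex.exp_nat_mul, mul_div_cancel₀ _ hMc, Complex.exp_pi_mul_I]
  have hξ0 : ξ ≠ 0 := by rw [hξ]; exact Complex.exp_ne_zero _
  obtain ⟨ω, hωdef⟩ : ∃ ω : ℂ, ω = ξ ^ 2 := ⟨_, rfl⟩
  have hω : IsPrimitiveRoot ω M := by
    have := Complex.isPrimitiveRoot_exp M hM0.ne'
    convert this using 1
    rw [hωdef, hξ, ← Complex.exp_nat_mul]
    congr 1
    push_cast
    ring
  have hωM : ω ^ M = 1 := hω.pow_eq_one
  have hωmod : ∀ x, ω ^ (x % M) = ω ^ x := by
    intro x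
    conv_rhs => rw [← Nat.div_add_mod x M, pow_add, pow_mul, hωM, one_pow, one_mul]
  have hωk : ∀ j, (-1 : ℂ) ^ j * ω ^ (k j) = ξ ^ j := by
    intro j
    rw [hk, hωmod, hωdef, ← pow_mul]
    have e : 2 * (j * h) = M * j + j := by
      have : 2 * (j * h) = j * (2 * h) := by ring
      rw [this, hh]; ring
    rw [e, pow_add, pow_mul, hξM, ← mul_assoc, ← mul_pow]
    norm_num
  have hωk' : ∀ j, (-1 : ℂ) ^ j * ω ^ (M - k j) = (ξ ^ j)⁻¹ := by
    intro j
    have h1 : ω ^ (M - k j) * ω ^ (k j) = 1 := by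
      rw [← pow_add, Nat.sub_add_cancel (hkM j).le, hωM]
    have h2 : ((-1 : ℂ) ^ j * ω ^ (M - k j)) * ξ ^ j = 1 := by
      rw [← hωk j]
      have : (-1 : ℂ) ^ j * ω ^ (M - k j) * ((-1 : ℂ) ^ j * ω ^ k j)
          = ((-1 : ℂ) ^ j * (-1 : ℂ) ^ j) * (ω ^ (M - k j) * ω ^ k j) := by ring
      rw [this, h1, ← mul_pow]
      norm_num
    exact eq_inv_of_mul_eq_one_left h2
  have hcos : ∀ j : ℕ, ξ ^ j + (ξ ^ j)⁻¹ = 2 * (Real.cos (Real.pi * j / M) : ℂ) := by
    intro j
    rw [Complex.ofReal_cos, Complex.two_cos]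
    have e1 : ξ ^ j = Complex.exp (((Real.pi * j / M : ℝ) : ℂ) * Complex.I) := by
      rw [hξ, ← Complex.exp_nat_mul]
      congr 1
      push_cast
      ring
    rw [e1, ← Complex.exp_neg]
    congr 2
    ring
  -- the coefficient function
  obtain ⟨a, ha⟩ : ∃ a : ℕ → ℤ, ∀ r, a r = ∑ j ∈ S, (-1) ^ j *
      ((if r = k j then 1 else 0) + (if r = M - k j then 1 else 0)) := ⟨_, fun _ => rfl⟩
  have hsum : ∑ r ∈ range M, (a r : ℂ) * ω ^ r = 0 := by
    have h1 : ∑ r ∈ range M, (a r : ℂ) * ω ^ r =
        ∑ j ∈ S, (ξ ^ j + (ξ ^ j)⁻¹) := by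
      simp only [ha]
      push_cast
      simp only [Finset.sum_mul]
      rw [Finset.sum_comm]
      refine Finset.sum_congr rfl fun j hj => ?_
      rw [← hωk' j, ← hωk j]
      have h3 : ∀ r ∈ range M, (-1 : ℂ) ^ j * ((if r = k j then 1 else 0) +
          (if r = M - k j then 1 else 0)) * ω ^ r =
          (if r = k j then (-1 : ℂ) ^ j * ω ^ (k j) else 0) +
          (if r = M - k j then (-1 : ℂ) ^ j * ω ^ (M - k j) else 0) := by
        intro r _
        by_cases h4 : r = k j
        · by_cases h5 : r = M - k j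
          · rw [if_pos h4, if_pos h5, if_pos h4, if_pos h5, ← h5, ← h4]; ring
          · rw [if_pos h4, if_neg h5, if_pos h4, if_neg h5, ← h4]; ring
        · by_cases h5 : r = M - k j
          · rw [if_neg h4, if_pos h5, if_neg h4, if_pos h5, ← h5]; ring
          · rw [if_neg h4, if_neg h5, if_neg h4, if_neg h5]; ring
      rw [Finset.sum_congr rfl h3, Finset.sum_add_distrib, Finset.sum_ite_eq', Finset.sum_ite_eq']
      have hj' := hS j hj
      have h6 : k j ∈ range M := Finset.mem_range.mpr (hkM j)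
      have h7 : M - k j ∈ range M := Finset.mem_range.mpr (by
        have := hk0 j hj'.1 hj'.2
        omega)
      rw [if_pos h6, if_pos h7]
    rw [h1]
    simp only [hcos]
    rw [← Finset.mul_sum, ← Complex.ofReal_sum, hz]
    simp
  have hbound : ∑ r ∈ range M, |a r| ≤ 2 * (S.card : ℤ) := by
    calc ∑ r ∈ range M, |a r| ≤ ∑ r ∈ range M, ∑ j ∈ S,
          ((if r = k j then (1 : ℤ) else 0) + (if r = M - k j then 1 else 0)) := by
          refine Finset.sum_le_sum fun r _ => ?_
          rw [ha]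
          refine (Finset.abs_sum_le_sum_abs _ _).trans ?_
          refine Finset.sum_le_sum fun j _ => ?_
          rw [abs_mul, abs_pow, abs_neg, abs_one, one_pow, one_mul]
          rw [abs_of_nonneg]
          split_ifs <;> norm_num
      _ = ∑ j ∈ S, ∑ r ∈ range M,
          ((if r = k j then (1 : ℤ) else 0) + (if r = M - k j then 1 else 0)) := Finset.sum_comm
      _ ≤ ∑ j ∈ S, 2 := by
          refine Finset.sum_le_sum fun j _ => ?_
          rw [Finset.sum_add_distrib, Finset.sum_ite_eq', Finset.sum_ite_eq']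
          split_ifs <;> norm_num
      _ = 2 * (S.card : ℤ) := by
          rw [Finset.sum_const, nsmul_eq_mul, mul_comm]
  have ha0 : a 0 = 0 := by
    rw [ha]
    refine Finset.sum_eq_zero fun j hj => ?_
    have hj' := hS j hj
    have h1 := hk0 j hj'.1 hj'.2
    have h2 := hkM j
    rw [if_neg (by omega), if_neg (by omega)]
    ring
  have hsym : ∀ r, 0 < r → r < M → a (M - r) = a r := by
    intro r hr0 hrM
    rw [ha, ha]
    refine Finset.sum_congr rfl fun j hj => ?_
    have hj' := hS j hj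
    have h1 := hk0 j hj'.1 hj'.2
    have h2 := hkM j
    have e1 : (M - r = k j) ↔ (r = M - k j) := by omega
    have e2 : (M - r = M - k j) ↔ (r = k j) := by omega
    simp only [e1, e2]
    rw [add_comm (if r = M - k j then (1 : ℤ) else 0)]
  have hzero := sym_vanish M hM0 hM S.card hp ω hω a hsum hbound ha0 hsym
  -- S is closed under j ↦ M - j
  have hclosed : ∀ j ∈ S, M - j ∈ S := by
    intro j hj
    by_contra hcon
    have hj' := hS j hj
    have h1 := hzero (k j) (hkM j)
    rw [ha, Finset.sum_eq_single j] at h1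
    · rw [if_pos rfl, if_neg] at h1
      · have : ((-1 : ℤ)) ^ j ≠ 0 := pow_ne_zero _ (by norm_num)
        apply this
        simp at h1
      · intro h2
        rw [hkneg j j hj'.1 hj'.2 hj'.1 hj'.2] at h2
        obtain ⟨c, hc⟩ := hM
        omega
    · intro j' hj'S hne
      have hj'' := hS j' hj'S
      rw [if_neg, if_neg]
      · ring
      · intro h2
        rw [hkneg j j' hj'.1 hj'.2 hj''.1 hj''.2] at h2
        exact hcon (h2 ▸ hj'S)
      · intro h2
        exact hne (hkinj j j' hj'.1 hj'.2 hj''.1 hj''.2 h2).symm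
    · intro h2
      exact absurd hj h2
  -- even cardinality
  have hcard : (S.filter Even).card = (S.filter (fun j => ¬ Even j)).card := by
    refine Finset.card_nbij' (fun j => M - j) (fun j => M - j) ?_ ?_ ?_ ?_
    · intro j hj
      simp only [Finset.coe_filter, Set.mem_ofPred_eq] at hj ⊢
      refine ⟨hclosed j hj.1, ?_⟩
      have hj' := hS j hj.1
      obtain ⟨c, hc⟩ := hM
      obtain ⟨d, hd⟩ := hj.2
      rw [Nat.not_even_iff_odd]
      exact ⟨c - d, by omega⟩
    · intro j hj
      simp only [Finset.coe_filter, Set.mem_ofPred_eq] at hj ⊢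
      refine ⟨hclosed j hj.1, ?_⟩
      have hj' := hS j hj.1
      obtain ⟨c, hc⟩ := hM
      obtain ⟨d, hd⟩ := Nat.not_even_iff_odd.mp hj.2
      exact ⟨c - d, by omega⟩
    · intro j hj
      simp only [Finset.coe_filter, Set.mem_ofPred_eq] at hj
      have hj' := hS j hj.1
      simp only
      omega
    · intro j hj
      simp only [Finset.coe_filter, Set.mem_ofPred_eq] at hj
      have hj' := hS j hj.1
      simp only
      omega
  have := Finset.card_filter_add_card_filter_not (s := S) Even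
  rw [← this, hcard]
  exact ⟨_, rfl⟩


/-- Adding pairs `{j, M - j}` to a zero-sum set. -/
lemma add_pairs {M : ℕ} (hM0 : 0 < M) (S0 : Finset ℕ) (hS0 : ∀ j ∈ S0, 0 < j ∧ j < M)
    (hz : ∑ j ∈ S0, Real.cos (Real.pi * j / M) = 0) (avail : Finset ℕ)
    (hav : ∀ j ∈ avail, 0 < j ∧ j < M) (hdisj : ∀ j ∈ avail, j ∉ S0)
    (hdisj' : ∀ j ∈ avail, M - j ∉ S0) (hself : ∀ j ∈ avail, M - j ∉ avail)
    (c : ℕ) (hc : c ≤ avail.card) :
    ∃ S : Finset ℕ, (∀ j ∈ S, 0 < j ∧ j < M) ∧ S.card = S0.card + 2 * c ∧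
      ∑ j ∈ S, Real.cos (Real.pi * j / M) = 0 := by
  obtain ⟨T, hT, hTc⟩ := Finset.exists_subset_card_eq hc
  have hTi : Set.InjOn (fun j => M - j) (T : Set ℕ) := by
    intro x hx y hy hxy
    have h1 := hav x (hT hx)
    have h2 := hav y (hT hy)
    simp only at hxy
    omega
  have hd1 : Disjoint T (T.image (fun j => M - j)) := by
    rw [Finset.disjoint_left]
    intro x hx hx'
    obtain ⟨y, hy, hyx⟩ := Finset.mem_image.mp hx'
    exact hself y (hT hy) (hyx ▸ hT hx)
  have hd2 : Disjoint S0 (T ∪ T.image (fun j => M - j)) := by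
    rw [Finset.disjoint_right]
    intro x hx
    rcases Finset.mem_union.mp hx with hx | hx
    · exact hdisj x (hT hx)
    · obtain ⟨y, hy, hyx⟩ := Finset.mem_image.mp hx
      exact hyx ▸ hdisj' y (hT hy)
  refine ⟨S0 ∪ (T ∪ T.image (fun j => M - j)), ?_, ?_, ?_⟩
  · intro j hj
    rcases Finset.mem_union.mp hj with hj | hj
    · exact hS0 j hj
    · rcases Finset.mem_union.mp hj with hj | hj
      · exact hav j (hT hj)
      · obtain ⟨y, hy, hyx⟩ := Finset.mem_image.mp hj
        have := hav y (hT hy)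
        omega
  · rw [Finset.card_union_of_disjoint hd2, Finset.card_union_of_disjoint hd1,
      Finset.card_image_of_injOn hTi, hTc]
    ring
  · rw [Finset.sum_union hd2, Finset.sum_union hd1, hz, Finset.sum_image hTi, zero_add,
      ← Finset.sum_add_distrib]
    refine Finset.sum_eq_zero fun j hj => ?_
    have h1 := hav j (hT hj)
    have hMr : (M : ℝ) ≠ 0 := Nat.cast_ne_zero.mpr hM0.ne'
    have e : Real.pi * ((M - j : ℕ) : ℝ) / M = Real.pi - Real.pi * j / M := by
      rw [Nat.cast_sub h1.2.le]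
      field_simp
    rw [e, Real.cos_pi_sub]
    ring

/-- The `p` cosines attached to a prime divisor `p` of `M = p * K`. -/
lemma prime_block {p K : ℕ} (hp : p.Prime) (hpodd : Odd p) (hK : 2 ≤ K) :
    ∃ S : Finset ℕ, (∀ j ∈ S, Odd j ∧ j < p * K) ∧ S.card = p ∧
      ∑ j ∈ S, Real.cos (Real.pi * j / (p * K : ℕ)) = 0 := by
  obtain ⟨f, hf⟩ : ∃ f : ℕ → ℕ, ∀ k, f k = if 2 * k < p then 1 + 2 * K * k
      else 2 * K * (p - k) - 1 := ⟨_, fun _ => rfl⟩
  have hfval : ∀ k < p, Odd (f k) ∧ f k < p * K := by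
    intro k hk
    rw [hf]
    obtain ⟨c, hc⟩ := hpodd
    split_ifs with h
    · refine ⟨⟨K * k, by ring⟩, ?_⟩
      have h1 : k ≤ c := by omega
      have h2 : K * k ≤ K * c := Nat.mul_le_mul_left K h1
      calc 1 + 2 * K * k = 1 + 2 * (K * k) := by ring
        _ ≤ 1 + 2 * (K * c) := by omega
        _ < 2 * (K * c) + K := by omega
        _ = p * K := by rw [hc]; ring
    · have h1 : p - k ≤ c := by omega
      have h1' : 1 ≤ p - k := by omega
      have h2 : K * (p - k) ≤ K * c := Nat.mul_le_mul_left K h1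
      have h3 : K * 1 ≤ K * (p - k) := Nat.mul_le_mul_left K h1'
      have h4 : 2 * K * (p - k) = 2 * (K * (p - k)) := by ring
      have h5 : p * K = 2 * (K * c) + K := by rw [hc]; ring
      refine ⟨⟨K * (p - k) - 1, by omega⟩, by omega⟩
  have hinj : Set.InjOn f (range p : Set ℕ) := by
    intro x hx y hy hxy
    have hx' : x < p := by simpa using hx
    have hy' : y < p := by simpa using hy
    rw [hf, hf] at hxy
    have key : ∀ u v, u < p → v < p → 2 * u < p → ¬ 2 * v < p →
        1 + 2 * K * u = 2 * K * (p - v) - 1 → False := by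
      intro u v hu hv h1 h2 h3
      have h4 : 1 ≤ p - v := by omega
      have h5 : K * 1 ≤ K * (p - v) := Nat.mul_le_mul_left K h4
      have h6 : 2 * K * (p - v) = 2 * (K * (p - v)) := by ring
      have h7 : 2 * K * u = 2 * (K * u) := by ring
      have h8 : K * (p - v) = K * u + 1 := by omega
      have h9 : K ∣ K * u + 1 := h8 ▸ Dvd.intro _ rfl
      have h10 : K ∣ 1 := (Nat.dvd_add_right (Dvd.intro u rfl)).mp h9
      have := Nat.le_of_dvd one_pos h10
      omega
    have hK0 : 0 < 2 * K := by omega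
    split_ifs at hxy with h1 h2 h2
    · have : 2 * K * x = 2 * K * y := by omega
      exact Nat.eq_of_mul_eq_mul_left hK0 this
    · exact (key x y hx' hy' h1 h2 hxy).elim
    · exact (key y x hy' hx' h2 h1 hxy.symm).elim
    · have e1 : 2 * K * 1 ≤ 2 * K * (p - x) := Nat.mul_le_mul_left _ (by omega)
      have e2 : 2 * K * 1 ≤ 2 * K * (p - y) := Nat.mul_le_mul_left _ (by omega)
      have : 2 * K * (p - x) = 2 * K * (p - y) := by omega
      have := Nat.eq_of_mul_eq_mul_left hK0 this
      omega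
  refine ⟨(range p).image f, ?_, ?_, ?_⟩
  · intro j hj
    obtain ⟨k, hk, rfl⟩ := Finset.mem_image.mp hj
    exact hfval k (Finset.mem_range.mp hk)
  · rw [Finset.card_image_of_injOn hinj, Finset.card_range]
  · rw [Finset.sum_image hinj]
    have hp0 : (p : ℝ) ≠ 0 := Nat.cast_ne_zero.mpr hp.ne_zero
    have hK0 : (K : ℝ) ≠ 0 := Nat.cast_ne_zero.mpr (by omega)
    have h1 : ∀ k ∈ range p, Real.cos (Real.pi * (f k) / (p * K : ℕ)) =
        (Complex.exp (Real.pi * Complex.I / (p * K : ℕ)) *
          (Complex.exp (2 * Real.pi * Complex.I / p)) ^ k).re := by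
      intro k hk
      have hk' : k < p := Finset.mem_range.mp hk
      rw [← Complex.exp_nat_mul, ← Complex.exp_add]
      have e1 : (Real.pi : ℂ) * Complex.I / (p * K : ℕ) + k * (2 * Real.pi * Complex.I / p) =
          ((Real.pi * (1 + 2 * K * k) / (p * K) : ℝ) : ℂ) * Complex.I := by
        have hp0' : (p : ℂ) ≠ 0 := Nat.cast_ne_zero.mpr hp.ne_zero
        have hK0' : (K : ℂ) ≠ 0 := Nat.cast_ne_zero.mpr (by omega)
        push_cast
        field_simp
      rw [e1, Complex.exp_ofReal_mul_I_re, hf]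
      split_ifs with h
      · congr 1
        push_cast
        ring
      · have h4 : 1 ≤ p - k := by omega
        have h5 : 2 * K * 1 ≤ 2 * K * (p - k) := Nat.mul_le_mul_left _ h4
        have e2 : ((2 * K * (p - k) - 1 : ℕ) : ℝ) = 2 * K * (p - k) - 1 := by
          rw [Nat.cast_sub (by omega)]
          push_cast [Nat.cast_sub hk'.le]
          ring
        rw [e2]
        have e3 : Real.pi * (2 * (K : ℝ) * (p - k) - 1) / (p * K : ℕ) =
            2 * Real.pi - Real.pi * (1 + 2 * K * k) / (p * K) := by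
          push_cast
          field_simp
          ring
        rw [e3, Real.cos_two_pi_sub]
    rw [Finset.sum_congr rfl h1, ← Complex.re_sum, ← Finset.mul_sum]
    have hζ := Complex.isPrimitiveRoot_exp p hp.ne_zero
    rw [hζ.geom_sum_eq_zero hp.one_lt, mul_zero, Complex.zero_re]

/-- Existence of zero sums in all the singular cases. -/
theorem exists_zero_sum (m n : ℕ) (hm : 1 ≤ m) (hn : 1 ≤ n)
    (h : ¬ (Odd m ∧ Odd n ∧ ∀ p : ℕ, p.Prime → p ∣ m + n + 1 → min m n < p)) :
    ∃ S : Finset ℕ, (∀ j ∈ S, 0 < j ∧ j < m + n + 1) ∧ S.card = m ∧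
      ∑ j ∈ S, Real.cos (Real.pi * j / (m + n + 1 : ℕ)) = 0 := by
  rcases Nat.even_or_odd m with hme | hmo
  · -- m even
    obtain ⟨c, hc⟩ := hme
    obtain ⟨S, h1, h2, h3⟩ := add_pairs (M := m + n + 1) (by omega) ∅ (by simp) (by simp)
      (Finset.Icc 1 c) (by intro j hj; rw [Finset.mem_Icc] at hj; omega) (by simp) (by simp)
      (by intro j hj; rw [Finset.mem_Icc] at hj ⊢; omega) c (by simp)
    exact ⟨S, h1, by rw [h2]; simp; omega, h3⟩
  · rcases Nat.even_or_odd n with hne | hno
    · -- m odd, n even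
      obtain ⟨c, hc⟩ := hmo
      obtain ⟨d, hd⟩ := hne
      obtain ⟨S, h1, h2, h3⟩ := add_pairs (M := m + n + 1) (by omega) {c + d + 1}
        (by intro j hj; rw [Finset.mem_singleton] at hj; omega) (by
          rw [Finset.sum_singleton]
          have e : Real.pi * ((c + d + 1 : ℕ) : ℝ) / ((m + n + 1 : ℕ) : ℝ) = Real.pi / 2 := by
            have e1 : ((m + n + 1 : ℕ) : ℝ) = 2 * ((c + d + 1 : ℕ) : ℝ) := by
              rw [hc, hd]; push_cast; ring
            have e2 : ((c + d + 1 : ℕ) : ℝ) ≠ 0 := by positivity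
            rw [e1]
            field_simp
          rw [e, Real.cos_pi_div_two])
        (Finset.Icc 1 c) (by intro j hj; rw [Finset.mem_Icc] at hj; omega)
        (by intro j hj; rw [Finset.mem_Icc] at hj; rw [Finset.mem_singleton]; omega)
        (by intro j hj; rw [Finset.mem_Icc] at hj; rw [Finset.mem_singleton]; omega)
        (by intro j hj; rw [Finset.mem_Icc] at hj ⊢; omega) c (by simp)
      exact ⟨S, h1, by rw [h2]; simp; omega, h3⟩
    · -- both odd
      have h' : ∃ p : ℕ, p.Prime ∧ p ∣ m + n + 1 ∧ p ≤ min m n := by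
        by_contra hcon
        push Not at hcon
        exact h ⟨hmo, hno, hcon⟩
      obtain ⟨p, hp, ⟨K, hK⟩, hple⟩ := h'
      have hpm : p ≤ m := hple.trans (min_le_left _ _)
      have hpn : p ≤ n := hple.trans (min_le_right _ _)
      have hodd : Odd (p * K) := by
        rw [← hK]
        obtain ⟨c, hc⟩ := hmo
        obtain ⟨d, hd⟩ := hno
        exact ⟨c + d + 1, by omega⟩
      have hpodd : Odd p := (Nat.odd_mul.mp hodd).1
      have hK2 : 2 ≤ K := by
        by_contra hcon
        have : K = 0 ∨ K = 1 := by omega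
        rcases this with rfl | rfl <;> omega
      obtain ⟨S0, hS0, hS0c, hS0z⟩ := prime_block hp hpodd hK2
      rw [hK]
      obtain ⟨L, hL⟩ := hodd
      -- odd numbers below p * K
      have hsub : S0 ⊆ (range L).image (fun i => 2 * i + 1) := by
        intro j hj
        obtain ⟨⟨i, hi⟩, hj2⟩ := hS0 j hj
        exact Finset.mem_image.mpr ⟨i, Finset.mem_range.mpr (by omega), hi.symm⟩
      have hcardO : ((range L).image (fun i => 2 * i + 1)).card = L := by
        rw [Finset.card_image_of_injective _ (fun x y hxy => by simpa using hxy), Finset.card_range]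
      have hodd' : ∀ j ∈ (range L).image (fun i => 2 * i + 1) \ S0, Odd j ∧ j < p * K := by
        intro j hj
        obtain ⟨i, hi, hij⟩ := Finset.mem_image.mp (Finset.mem_sdiff.mp hj).1
        have := Finset.mem_range.mp hi
        exact ⟨⟨i, hij.symm⟩, by omega⟩
      have hevn : ∀ j, Odd j → j < p * K → ¬ Odd (p * K - j) := by
        intro j hj hjM
        obtain ⟨i, hi⟩ := hj
        rw [Nat.not_odd_iff_even]
        exact ⟨L - i, by omega⟩
      obtain ⟨c, hc⟩ := hmo
      obtain ⟨d, hd⟩ := hno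
      obtain ⟨b, hb⟩ := hpodd
      obtain ⟨S, h1, h2, h3⟩ := add_pairs (M := p * K) (by omega) S0
        (by intro j hj; exact ⟨(hS0 j hj).1.pos, (hS0 j hj).2⟩) hS0z
        ((range L).image (fun i => 2 * i + 1) \ S0)
        (by intro j hj; exact ⟨(hodd' j hj).1.pos, (hodd' j hj).2⟩)
        (by intro j hj; exact (Finset.mem_sdiff.mp hj).2)
        (by
          intro j hj hcon
          exact hevn j (hodd' j hj).1 (hodd' j hj).2 (hS0 _ hcon).1)
        (by
          intro j hj hcon
          exact hevn j (hodd' j hj).1 (hodd' j hj).2 (hodd' _ hcon).1)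
        (c - b) (by
          rw [Finset.card_sdiff_of_subset hsub, hcardO, hS0c]
          omega)
      exact ⟨S, h1, by rw [h2, hS0c]; omega, h3⟩

/-- Non-existence of zero sums in the nonsingular cases. -/
theorem no_zero_sum (m n : ℕ) (hmo : Odd m) (hno : Odd n)
    (hp : ∀ p : ℕ, p.Prime → p ∣ m + n + 1 → min m n < p) (S : Finset ℕ)
    (hS : ∀ j ∈ S, 0 < j ∧ j < m + n + 1) (hc : S.card = m) :
    ∑ j ∈ S, Real.cos (Real.pi * j / (m + n + 1 : ℕ)) ≠ 0 := by
  intro hz
  have hodd : Odd (m + n + 1) := by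
    obtain ⟨c, hc⟩ := hmo
    obtain ⟨d, hd⟩ := hno
    exact ⟨c + d + 1, by omega⟩
  rcases le_total m n with hle | hle
  · have := even_card_of_zero_sum hodd S hS (by
      intro p hpp hd
      rw [hc]
      have := hp p hpp hd
      rwa [min_eq_left hle] at this) hz
    rw [hc] at this
    exact (Nat.not_odd_iff_even.mpr this) hmo
  · -- complement
    have hsub : S ⊆ Finset.Icc 1 (m + n) := by
      intro j hj
      have := hS j hj
      rw [Finset.mem_Icc]
      omega
    have hcard : (Finset.Icc 1 (m + n) \ S).card = n := by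
      rw [Finset.card_sdiff_of_subset hsub, Nat.card_Icc, hc]
      omega
    have hall : ∑ j ∈ Finset.Icc 1 (m + n), Real.cos (Real.pi * j / (m + n + 1 : ℕ)) = 0 := by
      have h1 : ∑ j ∈ Finset.Icc 1 (m + n), Real.cos (Real.pi * j / (m + n + 1 : ℕ)) =
          - ∑ j ∈ Finset.Icc 1 (m + n), Real.cos (Real.pi * j / (m + n + 1 : ℕ)) := by
        rw [← Finset.sum_neg_distrib]
        refine Finset.sum_nbij' (fun j => m + n + 1 - j) (fun j => m + n + 1 - j) ?_ ?_ ?_ ?_ ?_
        · intro j hj; rw [Finset.mem_Icc] at hj ⊢; omega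
        · intro j hj; rw [Finset.mem_Icc] at hj ⊢; omega
        · intro j hj; rw [Finset.mem_Icc] at hj; omega
        · intro j hj; rw [Finset.mem_Icc] at hj; omega
        · intro j hj
          rw [Finset.mem_Icc] at hj
          have hMr : ((m + n + 1 : ℕ) : ℝ) ≠ 0 := Nat.cast_ne_zero.mpr (by omega)
          have e : Real.pi * ((m + n + 1 - j : ℕ) : ℝ) / (m + n + 1 : ℕ)
              = Real.pi - Real.pi * j / (m + n + 1 : ℕ) := by
            rw [Nat.cast_sub (by omega)]
            field_simp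
          rw [e, Real.cos_pi_sub, neg_neg]
      linarith
    have hz' : ∑ j ∈ Finset.Icc 1 (m + n) \ S, Real.cos (Real.pi * j / (m + n + 1 : ℕ)) = 0 := by
      have := Finset.sum_sdiff hsub (f := fun j : ℕ => Real.cos (Real.pi * j / (m + n + 1 : ℕ)))
      rw [hz, hall, add_zero] at this
      exact this
    have := even_card_of_zero_sum hodd (Finset.Icc 1 (m + n) \ S) (by
        intro j hj
        have := Finset.mem_Icc.mp (Finset.mem_sdiff.mp hj).1
        omega) (by
      intro p hpp hd
      rw [hcard]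
      have := hp p hpp hd
      rwa [min_eq_right hle] at this) hz'
    rw [hcard] at this
    exact (Nat.not_odd_iff_even.mpr this) hno

end Pool.Agent.Work.MP_34e3ac_co
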