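import Mathlib

/-!
The lattice `L(m,n)`, particle positions and the covering relation.
-/

namespace Pool.Agent.Work.MP_34e3ac_co

open Finset

/-- The partitions with at most `m` parts, each part at most `n`: weakly decreasing functions
`Fin m → Fin (n + 1)`, with the componentwise order (containment of Young diagrams). -/
abbrev L (m n : ℕ) : Type := {f : Fin m → Fin (n + 1) // Antitone f}

/-- Position of the `i`-th particle. -/
def pos {m n : ℕ} (f : L m n) (i : Fin m) : ℤ := ((f.1 i : ℕ) : ℤ) + (m : ℤ) - (i : ℕ)

lemma pos_strictAnti {m n : ℕ} (f : L m n) : StrictAnti (pos f) := by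
  intro i j hij
  have h1 : f.1 j ≤ f.1 i := f.2 hij.le
  have h2 : ((f.1 j : ℕ)) ≤ (f.1 i : ℕ) := h1
  have h3 : (i : ℕ) < (j : ℕ) := hij
  unfold pos
  omega

lemma pos_pos {m n : ℕ} (f : L m n) (i : Fin m) : 1 ≤ pos f i := by
  unfold pos
  have := i.2
  omega

lemma pos_le {m n : ℕ} (f : L m n) (i : Fin m) : pos f i ≤ m + n := by
  unfold pos
  have := (f.1 i).2
  omega

lemma pos_le_pos {m n : ℕ} (f g : L m n) : f ≤ g ↔ ∀ i, pos f i ≤ pos g i := by
  constructor
  · intro h i
    have h1 : f.1 i ≤ g.1 i := h i
    have h2 : (f.1 i : ℕ) ≤ (g.1 i : ℕ) := h1
    unfold pos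
    omega
  · intro h i
    have h1 := h i
    unfold pos at h1
    have : (f.1 i : ℕ) ≤ (g.1 i : ℕ) := by omega
    exact this

lemma pos_injective {m n : ℕ} : Function.Injective (pos : L m n → Fin m → ℤ) := by
  intro f g h
  apply le_antisymm
  · rw [pos_le_pos]; intro i; rw [h]
  · rw [pos_le_pos]; intro i; rw [h]

lemma strictAnti_add_le {m : ℕ} (g : Fin m → ℤ) (hg : StrictAnti g) :
    Antitone (fun i : Fin m => g i + (i : ℕ)) := by
  rcases m with _ | m
  · intro i; exact i.elim0
  · rw [Fin.antitone_iff_succ_le]
    intro i
    have := hg (Fin.castSucc_lt_succ (i := i))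
    simp only [Fin.val_succ, Fin.val_castSucc]
    push_cast
    omega

/-- Every strictly decreasing sequence of positions in `[1, m + n]` comes from `L(m,n)`. -/
lemma exists_of_strictAnti {m n : ℕ} (g : Fin m → ℤ) (hg : StrictAnti g)
    (h1 : ∀ i, 1 ≤ g i) (h2 : ∀ i, g i ≤ m + n) : ∃ f : L m n, pos f = g := by
  have hanti := strictAnti_add_le g hg
  have hlow : ∀ i : Fin m, (m : ℤ) ≤ g i + (i : ℕ) := by
    intro i
    have hm : 0 < m := i.pos
    have h3 := hanti (show i ≤ ⟨m - 1, by omega⟩ from by
      rw [Fin.le_def]; simp only; have := i.2; omega)
    simp only at h3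
    have h4 := h1 ⟨m - 1, by omega⟩
    omega
  have hup : ∀ i : Fin m, g i + (i : ℕ) ≤ m + n := by
    intro i
    have hm : 0 < m := i.pos
    have h3 := hanti (show (⟨0, hm⟩ : Fin m) ≤ i from by rw [Fin.le_def]; simp)
    simp only at h3
    have h4 := h2 ⟨0, hm⟩
    omega
  refine ⟨⟨fun i => ⟨(g i + (i : ℕ) - m).toNat, by
    have := hlow i
    have := hup i
    omega⟩, ?_⟩, ?_⟩
  · intro i j hij
    have h3 := hanti hij
    simp only at h3
    rw [Fin.le_def]
    simp only
    omega
  · funext i
    unfold pos
    simp only
    have := hlow i
    omega

/-- Covering relation in terms of positions. -/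
lemma covBy_iff {m n : ℕ} (f g : L m n) :
    f ⋖ g ↔ ∃ j, pos g = Function.update (pos f) j (pos f j + 1) := by
  constructor
  · intro h
    have hlt : f < g := h.lt
    have hle : ∀ i, pos f i ≤ pos g i := (pos_le_pos f g).mp hlt.le
    have hne : ∃ i, pos f i < pos g i := by
      by_contra hcon
      push Not at hcon
      exact absurd ((pos_le_pos g f).mpr hcon) (not_le_of_gt hlt)
    -- minimal such index
    obtain ⟨j, hj, hjmin⟩ := Finset.exists_min_image (Finset.univ.filter fun i : Fin m => pos f i < pos g i)
      (fun i => i) (by
        obtain ⟨i, hi⟩ := hne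
        exact ⟨i, by simp [hi]⟩)
    have hj' : pos f j < pos g j := by simpa using hj
    have hmin : ∀ i, i < j → pos f i = pos g i := by
      intro i hi
      by_contra hcon
      have h1 : pos f i < pos g i := lt_of_le_of_ne (hle i) hcon
      have h2 := hjmin i (by simp [h1])
      exact absurd hi (not_lt_of_ge h2)
    have hanti : StrictAnti (Function.update (pos f) j (pos f j + 1)) := by
      intro a b hab
      have h0 := pos_strictAnti f hab
      by_cases hb : b = j
      · subst hb
        rw [Function.update_self, Function.update_of_ne hab.ne]
        have h1 := hmin a hab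
        have h2 := pos_strictAnti g hab
        omega
      · rw [Function.update_of_ne hb]
        by_cases ha : a = j
        · subst ha
          rw [Function.update_self]
          omega
        · rw [Function.update_of_ne ha]
          exact h0
    obtain ⟨k, hk⟩ := exists_of_strictAnti (m := m) (n := n) _ hanti (by
        intro i
        by_cases hi : i = j
        · subst hi
          rw [Function.update_self]
          have := pos_pos f i
          omega
        · rw [Function.update_of_ne hi]
          exact pos_pos f i) (by
        intro i
        by_cases hi : i = j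
        · subst hi
          rw [Function.update_self]
          have := pos_le g i
          omega
        · rw [Function.update_of_ne hi]
          exact pos_le f i)
    refine ⟨j, ?_⟩
    have hfk : f < k := by
      rw [lt_iff_le_not_ge, pos_le_pos, pos_le_pos, hk]
      constructor
      · intro i
        by_cases hi : i = j
        · subst hi
          rw [Function.update_self]
          omega
        · rw [Function.update_of_ne hi]
      · intro hcon
        have := hcon j
        rw [Function.update_self] at this
        omega
    have hkg : k ≤ g := by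
      rw [pos_le_pos, hk]
      intro i
      by_cases hi : i = j
      · subst hi
        rw [Function.update_self]
        omega
      · rw [Function.update_of_ne hi]
        exact hle i
    rcases hkg.lt_or_eq with hlt' | heq
    · exact absurd hlt' (h.2 hfk)
    · rw [← heq, hk]
  · rintro ⟨j, hj⟩
    constructor
    · rw [lt_iff_le_not_ge, pos_le_pos, pos_le_pos, hj]
      constructor
      · intro i
        by_cases hi : i = j
        · subst hi
          rw [Function.update_self]
          omega
        · rw [Function.update_of_ne hi]
      · intro hcon
        have := hcon j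
        rw [Function.update_self] at this
        omega
    · intro k hfk hkg
      have h1 : ∀ i, pos f i ≤ pos k i := (pos_le_pos f k).mp hfk.le
      have h2 : ∀ i, pos k i ≤ pos g i := (pos_le_pos k g).mp hkg.le
      have h3 : ∀ i, i ≠ j → pos k i = pos f i := by
        intro i hi
        have := h2 i
        rw [hj, Function.update_of_ne hi] at this
        exact le_antisymm this (h1 i)
      have h4 := h2 j
      rw [hj, Function.update_self] at h4
      have h5 : pos k j = pos f j ∨ pos k j = pos f j + 1 := by
        have := h1 j
        omega
      rcases h5 with h5 | h5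
      · have : pos k = pos f := by
          funext i
          by_cases hi : i = j
          · rw [hi, h5]
          · exact h3 i hi
        exact absurd (pos_injective this) hfk.ne'
      · have : pos k = pos g := by
          funext i
          by_cases hi : i = j
          · rw [hi, h5, hj, Function.update_self]
          · rw [h3 i hi, hj, Function.update_of_ne hi]
        exact absurd (pos_injective this) hkg.ne

lemma covBy_iff' {m n : ℕ} (f g : L m n) :
    g ⋖ f ↔ ∃ j, pos g = Function.update (pos f) j (pos f j - 1) := by
  rw [covBy_iff]
  constructor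
  · rintro ⟨j, hj⟩
    refine ⟨j, ?_⟩
    rw [hj]
    simp
  · rintro ⟨j, hj⟩
    refine ⟨j, ?_⟩
    rw [hj]
    simp

/-- Sum over upward/downward neighbours of a function vanishing on degenerate positions. -/
lemma sum_neighbours {m n : ℕ} (Φ : (Fin m → ℤ) → ℝ)
    (h0 : ∀ t : Fin m → ℤ, ¬ Function.Injective t → Φ t = 0)
    (h1 : ∀ t : Fin m → ℤ, (∃ i, t i = 0) → Φ t = 0)
    (h2 : ∀ t : Fin m → ℤ, (∃ i, t i = (m : ℤ) + n + 1) → Φ t = 0)
    (ε : ℤ) (hε : ε = 1 ∨ ε = -1) (f : L m n) (R : L m n → Prop) [DecidablePred R]
    (hR : ∀ g, R g ↔ ∃ j, pos g = Function.update (pos f) j (pos f j + ε)) :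
    ∑ g ∈ Finset.univ.filter R, Φ (pos g) =
      ∑ j, Φ (Function.update (pos f) j (pos f j + ε)) := by
  classical
  have hε0 : ε ≠ 0 := by rcases hε with h | h <;> omega
  -- uniqueness of the index
  have hju : ∀ j k, Function.update (pos f) j (pos f j + ε) =
      Function.update (pos f) k (pos f k + ε) → j = k := by
    intro j k h
    by_contra hne
    have := congrFun h j
    rw [Function.update_self, Function.update_of_ne hne] at this
    omega
  have hstep : ∀ g : L m n, (if R g then Φ (pos g) else 0) =
      ∑ j, if pos g = Function.update (pos f) j (pos f j + ε) then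
        Φ (Function.update (pos f) j (pos f j + ε)) else 0 := by
    intro g
    by_cases hg : R g
    · rw [if_pos hg]
      obtain ⟨j, hj⟩ := (hR g).mp hg
      rw [Finset.sum_eq_single j]
      · rw [if_pos hj, hj]
      · intro k _ hk
        rw [if_neg]
        intro hk'
        exact hk (hju k j (hk'.symm.trans hj))
      · simp
    · rw [if_neg hg, Finset.sum_eq_zero]
      intro j _
      rw [if_neg]
      intro hj
      exact hg ((hR g).mpr ⟨j, hj⟩)
  rw [Finset.sum_filter, Finset.sum_congr rfl (fun g _ => hstep g), Finset.sum_comm]
  refine Finset.sum_congr rfl fun j _ => ?_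
  by_cases hex : ∃ g : L m n, pos g = Function.update (pos f) j (pos f j + ε)
  · obtain ⟨g, hg⟩ := hex
    rw [Finset.sum_eq_single g]
    · rw [if_pos hg]
    · intro k _ hk
      rw [if_neg]
      intro hk'
      exact hk (pos_injective (hk'.trans hg.symm))
    · simp
  · have hz : Φ (Function.update (pos f) j (pos f j + ε)) = 0 := by
      by_contra hΦ
      apply hex
      obtain ⟨t, ht⟩ : ∃ t : Fin m → ℤ, t = Function.update (pos f) j (pos f j + ε) := ⟨_, rfl⟩
      rw [← ht] at hΦ ⊢
      have hinj : Function.Injective t := by
        by_contra hcon
        exact hΦ (h0 t hcon)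
      have hne0 : ∀ i, t i ≠ 0 := fun i hi => hΦ (h1 t ⟨i, hi⟩)
      have hneM : ∀ i, t i ≠ (m : ℤ) + n + 1 := fun i hi => hΦ (h2 t ⟨i, hi⟩)
      have htj : t j = pos f j + ε := by rw [ht, Function.update_self]
      have hti : ∀ i, i ≠ j → t i = pos f i := fun i hi => by rw [ht, Function.update_of_ne hi]
      apply exists_of_strictAnti
      · intro a b hab
        have h3 := pos_strictAnti f hab
        have h4 : t a ≠ t b := fun h => hab.ne (hinj h)
        by_cases hb : b = j
        · subst hb
          have := hti a hab.ne
          rcases hε with h | h <;> omega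
        · by_cases ha : a = j
          · subst ha
            have := hti b hb
            rcases hε with h | h <;> omega
          · rw [hti a ha, hti b hb]
            exact h3
      · intro i
        have := hne0 i
        by_cases hi : i = j
        · subst hi
          have := pos_pos f i
          rcases hε with h | h <;> omega
        · rw [hti i hi]; exact pos_pos f i
      · intro i
        have := hneM i
        by_cases hi : i = j
        · subst hi
          have := pos_le f i
          rcases hε with h | h <;> omega
        · rw [hti i hi]; exact pos_le f i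
    rw [hz]
    simp

end Pool.Agent.Work.MP_34e3ac_co
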