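import Mathlib
import Pool.Agent.Work.MP_34e3ac_co.Lattice

/-!
Slater determinants diagonalise the adjacency matrix of the Hasse diagram of `L(m,n)`.
-/

namespace Pool.Agent.Work.MP_34e3ac_co

open Finset

/-- one half of Cauchy-Binet -/
lemma sum_prod_det {m N : ℕ} (B : Matrix (Fin m) (Fin N) ℝ) (C : Matrix (Fin N) (Fin m) ℝ) :
    ∑ s : Fin m → Fin N, (∏ i, B i (s i)) * (Matrix.of fun i j => C (s i) j).det =
      (B * C).det := by
  rw [Matrix.det_apply']
  simp only [Matrix.det_apply', Matrix.mul_apply, Matrix.of_apply]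
  have h1 : ∀ σ : Equiv.Perm (Fin m), ∏ i, ∑ a, B (σ i) a * C a i =
      ∑ s : Fin m → Fin N, (∏ i, B i (s i)) * ∏ i, C (s (σ i)) i := by
    intro σ
    rw [Finset.prod_univ_sum, Fintype.piFinset_univ]
    rw [← Equiv.sum_comp (Equiv.arrowCongr σ.symm (Equiv.refl (Fin N)))]
    refine Finset.sum_congr rfl fun s _ => ?_
    rw [Finset.prod_mul_distrib]
    congr 1
    · simp only [Equiv.arrowCongr_apply, Equiv.coe_refl, Function.comp, id, Equiv.symm_symm]
      exact Equiv.prod_comp σ (fun i => B i (s i))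
  simp only [h1, Finset.mul_sum]
  rw [Finset.sum_comm]
  refine Finset.sum_congr rfl fun σ _ => Finset.sum_congr rfl fun s _ => ?_
  ring

/-- Slater determinant of sines. -/
noncomputable def slater (M : ℕ) {m : ℕ} (s t : Fin m → ℤ) : ℝ :=
  (Matrix.of fun i j : Fin m => Real.sin (Real.pi * s i * t j / M)).det

lemma slater_zero_of_not_injective_right (M : ℕ) {m : ℕ} (s t : Fin m → ℤ)
    (h : ¬ Function.Injective t) : slater M s t = 0 := by
  rw [Function.not_injective_iff] at h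
  obtain ⟨a, b, hab, hne⟩ := h
  refine Matrix.det_zero_of_column_eq hne fun i => ?_
  simp [hab]

lemma slater_zero_of_not_injective_left (M : ℕ) {m : ℕ} (s t : Fin m → ℤ)
    (h : ¬ Function.Injective s) : slater M s t = 0 := by
  rw [Function.not_injective_iff] at h
  obtain ⟨a, b, hab, hne⟩ := h
  refine Matrix.det_zero_of_row_eq hne ?_
  funext j
  simp [hab]

lemma slater_zero_of_zero (M : ℕ) {m : ℕ} (s t : Fin m → ℤ)
    (h : ∃ i, t i = 0) : slater M s t = 0 := by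
  obtain ⟨a, ha⟩ := h
  refine Matrix.det_eq_zero_of_column_eq_zero a fun i => ?_
  simp [ha]

lemma slater_zero_of_top (M : ℕ) (hM : M ≠ 0) {m : ℕ} (s t : Fin m → ℤ)
    (h : ∃ i, t i = M) : slater M s t = 0 := by
  obtain ⟨a, ha⟩ := h
  refine Matrix.det_eq_zero_of_column_eq_zero a fun i => ?_
  have hMr : (M : ℝ) ≠ 0 := Nat.cast_ne_zero.mpr hM
  simp only [Matrix.of_apply, ha]
  have e : Real.pi * (s i : ℝ) * ((M : ℤ) : ℝ) / M = (s i : ℤ) * Real.pi := by
    push_cast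
    field_simp
  rw [e, Real.sin_int_mul_pi]

lemma slater_eigen (M : ℕ) {m : ℕ} (s t : Fin m → ℤ) :
    (∑ j, slater M s (Function.update t j (t j + 1))) +
      (∑ j, slater M s (Function.update t j (t j + -1))) =
    (∑ i, 2 * Real.cos (Real.pi * s i / M)) * slater M s t := by
  rw [← Finset.sum_add_distrib]
  simp only [slater, Matrix.det_apply', Matrix.of_apply]
  have hprod : ∀ (σ : Equiv.Perm (Fin m)) (j : Fin m) (x : ℤ),
      ∏ i, Real.sin (Real.pi * s (σ i) * (Function.update t j x i : ℤ) / M) =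
      Real.sin (Real.pi * s (σ j) * x / M) *
        ∏ i ∈ Finset.univ.erase j, Real.sin (Real.pi * s (σ i) * t i / M) := by
    intro σ j x
    rw [← Finset.mul_prod_erase Finset.univ _ (Finset.mem_univ j)]
    rw [Function.update_self]
    congr 1
    refine Finset.prod_congr rfl fun i hi => ?_
    rw [Function.update_of_ne (Finset.ne_of_mem_erase hi)]
  have hstep : ∀ (σ : Equiv.Perm (Fin m)) (j : Fin m),
      ∏ i, Real.sin (Real.pi * s (σ i) * (Function.update t j (t j + 1) i : ℤ) / M) +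
      ∏ i, Real.sin (Real.pi * s (σ i) * (Function.update t j (t j + -1) i : ℤ) / M) =
      2 * Real.cos (Real.pi * s (σ j) / M) *
        ∏ i, Real.sin (Real.pi * s (σ i) * t i / M) := by
    intro σ j
    rw [hprod, hprod, ← add_mul, ← Finset.mul_prod_erase Finset.univ
      (fun i => Real.sin (Real.pi * s (σ i) * t i / M)) (Finset.mem_univ j), ← mul_assoc]
    congr 1
    have e1 : Real.pi * (s (σ j) : ℝ) * ((t j + 1 : ℤ) : ℝ) / M =
        Real.pi * s (σ j) * t j / M + Real.pi * s (σ j) / M := by push_cast; ring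
    have e2 : Real.pi * (s (σ j) : ℝ) * ((t j + -1 : ℤ) : ℝ) / M =
        Real.pi * s (σ j) * t j / M - Real.pi * s (σ j) / M := by push_cast; ring
    rw [e1, e2, Real.sin_add, Real.sin_sub]
    ring
  have hswap : ∀ σ : Equiv.Perm (Fin m), ∑ j, 2 * Real.cos (Real.pi * s (σ j) / M) =
      ∑ j, 2 * Real.cos (Real.pi * s j / M) := fun σ =>
    Equiv.sum_comp σ (fun j => 2 * Real.cos (Real.pi * s j / M))
  have h1 : ∀ j, (∑ σ : Equiv.Perm (Fin m), ((Equiv.Perm.sign σ : ℤ) : ℝ) *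
        ∏ i, Real.sin (Real.pi * s (σ i) * (Function.update t j (t j + 1) i : ℤ) / M)) +
      (∑ σ : Equiv.Perm (Fin m), ((Equiv.Perm.sign σ : ℤ) : ℝ) *
        ∏ i, Real.sin (Real.pi * s (σ i) * (Function.update t j (t j + -1) i : ℤ) / M)) =
      ∑ σ : Equiv.Perm (Fin m), ((Equiv.Perm.sign σ : ℤ) : ℝ) *
        (2 * Real.cos (Real.pi * s (σ j) / M) *
        ∏ i, Real.sin (Real.pi * s (σ i) * t i / M)) := by
    intro j
    rw [← Finset.sum_add_distrib]
    refine Finset.sum_congr rfl fun σ _ => ?_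
    rw [← mul_add, hstep]
  rw [Finset.sum_congr rfl (fun j _ => h1 j), Finset.sum_comm, Finset.mul_sum]
  refine Finset.sum_congr rfl fun σ _ => ?_
  rw [← Finset.mul_sum, ← Finset.sum_mul, hswap]
  ring

/-- sums of cosines -/
lemma sum_cos_range (M : ℕ) (hM : 0 < M) (k : ℤ) (hk : ¬ (2 * (M : ℤ)) ∣ k) :
    2 * ∑ a ∈ range (M - 1), Real.cos (Real.pi * (a + 1) * k / M) = -(1 + (-1 : ℝ) ^ k) := by
  -- symmetric sum over -(M-1)..(M-1) of exponentials
  have hMr : (M : ℝ) ≠ 0 := Nat.cast_ne_zero.mpr hM.ne'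
  have hMc : (M : ℂ) ≠ 0 := Nat.cast_ne_zero.mpr hM.ne'
  obtain ⟨z, hz⟩ : ∃ z : ℂ, z = Complex.exp (Real.pi * k / M * Complex.I) := ⟨_, rfl⟩
  have hz0 : z ≠ 0 := by rw [hz]; exact Complex.exp_ne_zero _
  have hzM : z ^ M = (-1 : ℂ) ^ k := by
    rw [hz, ← Complex.exp_nat_mul]
    have : (M : ℂ) * (Real.pi * k / M * Complex.I) = k * (Real.pi * Complex.I) := by
      field_simp
    rw [this, Complex.exp_int_mul, Complex.exp_pi_mul_I]
  have hz1 : z ≠ 1 := by
    intro h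
    rw [hz, Complex.exp_eq_one_iff] at h
    obtain ⟨n, hn⟩ := h
    apply hk
    refine ⟨n, ?_⟩
    have hpi : (Real.pi : ℂ) ≠ 0 := by exact_mod_cast Real.pi_ne_zero
    have hI : Complex.I ≠ 0 := Complex.I_ne_zero
    have h2 : (k : ℂ) = 2 * M * n := by
      have h3 : (Real.pi : ℂ) * Complex.I * (k - 2 * M * n) = 0 := by
        have h4 : (Real.pi : ℂ) * k / M * Complex.I * M = n * (2 * Real.pi * Complex.I) * M := by
          rw [hn]
        have h5 : (Real.pi : ℂ) * k / M * Complex.I * M = Real.pi * k * Complex.I := by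
          field_simp
        rw [h5] at h4
        linear_combination h4
      have h6 := (mul_eq_zero.mp h3).resolve_left (mul_ne_zero hpi hI)
      exact sub_eq_zero.mp h6
    exact_mod_cast h2
  have hcos : ∀ a : ℕ, 2 * (Real.cos (Real.pi * (a + 1) * k / M) : ℂ) =
      z ^ (a + 1) + (z⁻¹) ^ (a + 1) := by
    intro a
    rw [Complex.ofReal_cos, Complex.two_cos, hz, ← Complex.exp_neg, ← Complex.exp_nat_mul,
      ← Complex.exp_nat_mul]
    congr 2
    · push_cast; ring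
    · push_cast; ring
  have hg : ∀ w : ℂ, w ≠ 1 → w ^ M = (-1 : ℂ) ^ k →
      ∑ a ∈ range (M - 1), w ^ (a + 1) = ((-1 : ℂ) ^ k - 1) / (w - 1) - 1 := by
    intro w hw1 hwM
    have h1 := geom_sum_eq hw1 M
    have h2 : M = (M - 1) + 1 := by omega
    conv_lhs at h1 => rw [h2]
    rw [Finset.sum_range_succ', pow_zero, hwM] at h1
    rw [← h1]
    ring
  have hzi1 : z⁻¹ ≠ 1 := by
    intro h
    exact hz1 (inv_eq_one.mp h)
  have hziM : (z⁻¹) ^ M = (-1 : ℂ) ^ k := by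
    rw [inv_pow, hzM, ← inv_zpow]
    norm_num
  have htot : (2 * ∑ a ∈ range (M - 1), (Real.cos (Real.pi * (a + 1) * k / M) : ℂ)) =
      -(1 + (-1 : ℂ) ^ k) := by
    rw [Finset.mul_sum, Finset.sum_congr rfl (fun a _ => hcos a), Finset.sum_add_distrib,
      hg z hz1 hzM, hg z⁻¹ hzi1 hziM]
    have h3 : z - 1 ≠ 0 := sub_ne_zero.mpr hz1
    have h4 : z⁻¹ - 1 ≠ 0 := sub_ne_zero.mpr hzi1
    have h5 : 1 / (z - 1) + 1 / (z⁻¹ - 1) = -1 := by
      have h6 : z⁻¹ - 1 = -(z - 1) / z := by field_simp; ring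
      rw [h6]
      field_simp
      ring
    have h7 : ((-1 : ℂ) ^ k - 1) / (z - 1) - 1 + (((-1 : ℂ) ^ k - 1) / (z⁻¹ - 1) - 1) =
        ((-1 : ℂ) ^ k - 1) * (1 / (z - 1) + 1 / (z⁻¹ - 1)) - 2 := by ring
    rw [h7, h5]
    ring
  have := congrArg Complex.re htot
  have h8 : ((2 * ∑ a ∈ range (M - 1), (Real.cos (Real.pi * (a + 1) * k / M) : ℂ))).re =
      2 * ∑ a ∈ range (M - 1), Real.cos (Real.pi * (a + 1) * k / M) := by
    rw [← Complex.ofReal_sum]
    norm_cast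
  have h9 : (-(1 + (-1 : ℂ) ^ k)).re = -(1 + (-1 : ℝ) ^ k) := by
    have : (-(1 + (-1 : ℂ) ^ k)) = ((-(1 + (-1 : ℝ) ^ k) : ℝ) : ℂ) := by
      push_cast; ring
    rw [this, Complex.ofReal_re]
  rw [h8, h9] at this
  exact this

lemma sin_orthogonal (N : ℕ) (x y : ℤ) (hx : 1 ≤ x) (hxN : x ≤ N) (hy : 1 ≤ y) (hyN : y ≤ N) :
    ∑ a : Fin N, Real.sin (Real.pi * ((a : ℕ) + 1 : ℤ) * x / (N + 1 : ℕ)) *
      Real.sin (Real.pi * ((a : ℕ) + 1 : ℤ) * y / (N + 1 : ℕ)) =
      if x = y then ((N : ℝ) + 1) / 2 else 0 := by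
  rw [Fin.sum_univ_eq_sum_range (fun a => Real.sin (Real.pi * ((a : ℕ) + 1 : ℤ) * x / (N + 1 : ℕ)) *
      Real.sin (Real.pi * ((a : ℕ) + 1 : ℤ) * y / (N + 1 : ℕ))) N]
  have h1 : ∀ a ∈ range N, Real.sin (Real.pi * ((a : ℕ) + 1 : ℤ) * x / (N + 1 : ℕ)) *
      Real.sin (Real.pi * ((a : ℕ) + 1 : ℤ) * y / (N + 1 : ℕ)) =
      (Real.cos (Real.pi * (a + 1) * (x - y : ℤ) / (N + 1 : ℕ)) -
        Real.cos (Real.pi * (a + 1) * (x + y : ℤ) / (N + 1 : ℕ))) / 2 := by
    intro a _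
    have e1 : Real.pi * ((a : ℝ) + 1) * (x - y : ℤ) / (N + 1 : ℕ) =
        Real.pi * ((a : ℕ) + 1 : ℤ) * x / (N + 1 : ℕ) -
        Real.pi * ((a : ℕ) + 1 : ℤ) * y / (N + 1 : ℕ) := by push_cast; ring
    have e2 : Real.pi * ((a : ℝ) + 1) * (x + y : ℤ) / (N + 1 : ℕ) =
        Real.pi * ((a : ℕ) + 1 : ℤ) * x / (N + 1 : ℕ) +
        Real.pi * ((a : ℕ) + 1 : ℤ) * y / (N + 1 : ℕ) := by push_cast; ring
    rw [e1, e2, Real.cos_sub, Real.cos_add]
    ring
  rw [Finset.sum_congr rfl h1, ← Finset.sum_div, Finset.sum_sub_distrib]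
  have h2 := sum_cos_range (N + 1) (by omega) (x + y) (by
    intro hd
    have := Int.le_of_dvd (by omega) hd
    push_cast at this
    omega)
  rw [Nat.add_sub_cancel] at h2
  by_cases hxy : x = y
  · rw [if_pos hxy]
    subst hxy
    have h3 : ∑ a ∈ range N, Real.cos (Real.pi * (a + 1) * (x - x : ℤ) / (N + 1 : ℕ)) = N := by
      simp
    rw [h3]
    have h4 : (-1 : ℝ) ^ (x + x) = 1 := by
      rw [Even.neg_one_zpow ⟨x, rfl⟩]
    rw [h4] at h2
    linarith
  · rw [if_neg hxy]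
    have h3 := sum_cos_range (N + 1) (by omega) (x - y) (by
      intro hd
      obtain ⟨c, hc⟩ := hd
      push_cast at hc
      have hc0 : c = 0 := by
        by_contra hcon
        rcases lt_or_gt_of_ne hcon with h | h
        · have : c ≤ -1 := by omega
          nlinarith
        · have : 1 ≤ c := by omega
          nlinarith
      rw [hc0] at hc
      omega)
    rw [Nat.add_sub_cancel] at h3
    have h4 : (-1 : ℝ) ^ (x + y) = (-1 : ℝ) ^ (x - y) := by
      have : x + y = (x - y) + (y + y) := by ring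
      rw [this, zpow_add₀ (by norm_num), Even.neg_one_zpow (n := y + y) ⟨y, rfl⟩, mul_one]
    rw [h4] at h2
    linarith

/-- The bilinear identity. -/
lemma slater_bilinear (N : ℕ) {m : ℕ} (x y : Fin m → ℤ) (hx : ∀ i, 1 ≤ x i ∧ x i ≤ N)
    (hy : ∀ i, 1 ≤ y i ∧ y i ≤ N) :
    ∑ s : Fin m → Fin N, (∏ i, Real.sin (Real.pi * (((s i : ℕ) + 1 : ℤ) : ℝ) * x i / (N + 1 : ℕ))) *
      slater (N + 1) (fun i => ((s i : ℕ) + 1 : ℤ)) y =
    (Matrix.of fun i j => if x i = y j then ((N : ℝ) + 1) / 2 else 0).det := by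
  have h := sum_prod_det (m := m) (N := N)
    (Matrix.of fun i a => Real.sin (Real.pi * (((a : ℕ) + 1 : ℤ) : ℝ) * x i / (N + 1 : ℕ)))
    (Matrix.of fun a j => Real.sin (Real.pi * (((a : ℕ) + 1 : ℤ) : ℝ) * y j / (N + 1 : ℕ)))
  simp only [Matrix.of_apply] at h
  unfold slater
  rw [h]
  congr 1
  ext i j
  rw [Matrix.mul_apply]
  simp only [Matrix.of_apply]
  exact sin_orthogonal N (x i) (y j) (hx i).1 (hx i).2 (hy j).1 (hy j).2

end Pool.Agent.Work.MP_34e3ac_co
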