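import Mathlib
import Pool.Agent.Work.MP_34e3ac_co.Slater
import Pool.Agent.Work.MP_34e3ac_co.Cosines

/-!
Nonsingularity of the adjacency matrix of the Hasse diagram of `L(m,n)`.
-/

namespace Pool.Agent.Work.MP_34e3ac_co

open Finset

open Classical in
lemma adj_mulVec {m n : ℕ} (Φ : (Fin m → ℤ) → ℝ)
    (h0 : ∀ t : Fin m → ℤ, ¬ Function.Injective t → Φ t = 0)
    (h1 : ∀ t : Fin m → ℤ, (∃ i, t i = 0) → Φ t = 0)
    (h2 : ∀ t : Fin m → ℤ, (∃ i, t i = (m : ℤ) + n + 1) → Φ t = 0) (f : L m n) :
    (((SimpleGraph.hasse (L m n)).adjMatrix ℝ).mulVec (fun g => Φ (pos g))) f =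
      (∑ j, Φ (Function.update (pos f) j (pos f j + 1))) +
      (∑ j, Φ (Function.update (pos f) j (pos f j + -1))) := by
  rw [SimpleGraph.adjMatrix_mulVec_apply]
  have e : (SimpleGraph.hasse (L m n)).neighborFinset f =
      (Finset.univ.filter fun g => f ⋖ g) ∪ (Finset.univ.filter fun g => g ⋖ f) := by
    ext g
    rw [SimpleGraph.mem_neighborFinset, SimpleGraph.hasse_adj, Finset.mem_union,
      Finset.mem_filter, Finset.mem_filter]
    simp
  have hd : Disjoint (Finset.univ.filter fun g : L m n => f ⋖ g)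
      (Finset.univ.filter fun g => g ⋖ f) := by
    rw [Finset.disjoint_left]
    intro g hg hg'
    have h3 : f ⋖ g := (Finset.mem_filter.mp hg).2
    have h4 : g ⋖ f := (Finset.mem_filter.mp hg').2
    exact lt_asymm h3.lt h4.lt
  rw [e, Finset.sum_union hd]
  congr 1
  · exact sum_neighbours Φ h0 h1 h2 1 (Or.inl rfl) f (fun g => f ⋖ g) (fun g => covBy_iff f g)
  · exact sum_neighbours Φ h0 h1 h2 (-1) (Or.inr rfl) f (fun g => g ⋖ f) (fun g => covBy_iff' f g)

open Classical in
lemma slater_eigenvector {m n : ℕ} (s : Fin m → ℤ) (f : L m n) :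
    (((SimpleGraph.hasse (L m n)).adjMatrix ℝ).mulVec
      (fun g => slater (m + n + 1) s (pos g))) f =
      (∑ i, 2 * Real.cos (Real.pi * s i / (m + n + 1 : ℕ))) * slater (m + n + 1) s (pos f) := by
  rw [adj_mulVec (fun t => slater (m + n + 1) s t)
    (fun t ht => slater_zero_of_not_injective_right _ s t ht)
    (fun t ht => slater_zero_of_zero _ s t ht)
    (fun t ht => slater_zero_of_top _ (by omega) s t (by
      obtain ⟨i, hi⟩ := ht
      exact ⟨i, by rw [hi]; push_cast; ring⟩))]
  exact slater_eigen (m + n + 1) s (pos f)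

/-- Two strictly decreasing tuples, one with entries among those of the other, coincide. -/
lemma eq_of_strictAnti {m : ℕ} (x y : Fin m → ℤ) (hx : StrictAnti x) (hy : StrictAnti y)
    (h : ∀ i, ∃ j, x i = y j) : x = y := by
  have hsub : Finset.univ.image x ⊆ Finset.univ.image y := by
    intro a ha
    obtain ⟨i, -, rfl⟩ := Finset.mem_image.mp ha
    obtain ⟨j, hj⟩ := h i
    exact Finset.mem_image.mpr ⟨j, Finset.mem_univ _, hj.symm⟩
  have hcard : (Finset.univ.image y).card ≤ (Finset.univ.image x).card := by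
    rw [Finset.card_image_of_injective _ hx.injective, Finset.card_image_of_injective _ hy.injective]
  have heq := Finset.eq_of_subset_of_card_le hsub hcard
  have hx' : StrictMono (fun i => - x i) := fun i j hij => neg_lt_neg (hx hij)
  have hy' : StrictMono (fun i => - y i) := fun i j hij => neg_lt_neg (hy hij)
  have hr : Set.range (fun i => - x i) = Set.range (fun i => - y i) := by
    ext a
    simp only [Set.mem_range]
    have h1 : ∀ b, (∃ i, x i = b) ↔ (∃ i, y i = b) := by
      intro b
      have := Finset.ext_iff.mp heq b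
      simpa using this
    constructor
    · rintro ⟨i, hi⟩
      obtain ⟨j, hj⟩ := (h1 (x i)).mp ⟨i, rfl⟩
      exact ⟨j, by rw [hj]; exact hi⟩
    · rintro ⟨i, hi⟩
      obtain ⟨j, hj⟩ := (h1 (y i)).mpr ⟨i, rfl⟩
      exact ⟨j, by rw [hj]; exact hi⟩
  have := (StrictMono.range_inj hx' hy').mp hr
  funext i
  have := congrFun this i
  simpa using this

lemma slater_comp_perm (M : ℕ) {m : ℕ} (s t : Fin m → ℤ) (σ : Equiv.Perm (Fin m)) :
    slater M s (t ∘ σ) = ((Equiv.Perm.sign σ : ℤ) : ℝ) * slater M s t := by
  unfold slater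
  rw [← Matrix.det_permute']
  rfl

/-- Every injective tuple of positions is a rearrangement of a strictly decreasing one. -/
lemma exists_perm_pos {m n : ℕ} (t : Fin m → ℤ) (ht : Function.Injective t)
    (h1 : ∀ i, 1 ≤ t i) (h2 : ∀ i, t i ≤ m + n) :
    ∃ (f : L m n) (σ : Equiv.Perm (Fin m)), pos f = t ∘ σ := by
  obtain ⟨σ, hσ⟩ : ∃ σ : Equiv.Perm (Fin m), Monotone ((fun i => - t i) ∘ σ) :=
    ⟨_, Tuple.monotone_sort (fun i => - t i)⟩
  have hanti : StrictAnti (t ∘ σ) := by
    intro i j hij
    have h3 := hσ hij.le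
    simp only [Function.comp_apply] at h3 ⊢
    have h4 : t (σ i) ≠ t (σ j) := fun h => hij.ne (σ.injective (ht h))
    omega
  obtain ⟨f, hf⟩ := exists_of_strictAnti (m := m) (n := n) (t ∘ σ) hanti (fun i => h1 _)
    (fun i => h2 _)
  exact ⟨f, σ, hf⟩

open Classical in
theorem det_ne_zero_iff (m n : ℕ) (hm : 1 ≤ m) (hn : 1 ≤ n) :
    ((SimpleGraph.hasse (L m n)).adjMatrix ℝ).det ≠ 0 ↔
      Odd m ∧ Odd n ∧ ∀ p : ℕ, p.Prime → p ∣ m + n + 1 → min m n < p := by
  constructor
  · -- nonsingular implies the arithmetic condition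
    intro hdet
    by_contra hcon
    obtain ⟨S, hS, hSc, hSz⟩ := exists_zero_sum m n hm hn hcon
    obtain ⟨e, he⟩ : ∃ e : Fin m ↪o ℕ, e = S.orderEmbOfFin hSc := ⟨_, rfl⟩
    have heS : ∀ i, e i ∈ S := fun i => by rw [he]; exact Finset.orderEmbOfFin_mem S hSc i
    obtain ⟨s, hs⟩ : ∃ s : Fin m → ℤ, ∀ i, s i = (e i : ℤ) := ⟨fun i => (e i : ℤ), fun _ => rfl⟩
    have hlam : ∑ i, 2 * Real.cos (Real.pi * s i / (m + n + 1 : ℕ)) = 0 := by
      rw [← Finset.mul_sum]
      have h1 : ∑ i, Real.cos (Real.pi * s i / (m + n + 1 : ℕ)) =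
          ∑ j ∈ S, Real.cos (Real.pi * j / (m + n + 1 : ℕ)) := by
        have h2 : S = Finset.univ.image e := by
          rw [he, Finset.image_orderEmbOfFin_univ]
        rw [h2, Finset.sum_image (fun i _ j _ hij => e.injective hij)]
        refine Finset.sum_congr rfl fun i _ => ?_
        rw [hs]
        norm_cast
      rw [h1, hSz, mul_zero]
    have hv : ((SimpleGraph.hasse (L m n)).adjMatrix ℝ).mulVec
        (fun g => slater (m + n + 1) s (pos g)) = 0 := by
      funext f
      rw [slater_eigenvector s f, hlam, zero_mul]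
      rfl
    have hv0 : (fun g : L m n => slater (m + n + 1) s (pos g)) = 0 := by
      by_contra hne
      exact hdet (Matrix.exists_mulVec_eq_zero_iff.mp ⟨_, hne, hv⟩)
    -- all Slater determinants vanish
    have hall : ∀ t : Fin m → ℤ, (∀ i, 1 ≤ t i) → (∀ i, t i ≤ m + n) →
        slater (m + n + 1) s t = 0 := by
      intro t h1 h2
      by_cases ht : Function.Injective t
      · obtain ⟨f, σ, hf⟩ := exists_perm_pos (n := n) t ht h1 h2
        have h3 := congrFun hv0 f
        simp only [Pi.zero_apply] at h3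
        rw [hf, slater_comp_perm] at h3
        have h4 : ((Equiv.Perm.sign σ : ℤ) : ℝ) ≠ 0 := by
          norm_cast
          exact Int.isUnit_iff.mp (Equiv.Perm.sign σ).isUnit |>.elim (fun h => by simp) (fun h => by simp)
        exact (mul_eq_zero.mp h3).resolve_left h4
      · exact slater_zero_of_not_injective_right _ s t ht
    have hs1 : ∀ i, 1 ≤ s i ∧ s i ≤ (m + n : ℕ) := by
      intro i
      have := hS _ (heS i)
      rw [hs]
      push_cast
      omega
    have hbil := slater_bilinear (m + n) s s hs1 hs1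
    have hsymm : ∀ t : Fin m → ℤ, slater (m + n + 1) t s = slater (m + n + 1) s t := by
      intro t
      unfold slater
      rw [← Matrix.det_transpose]
      congr 1
      ext i j
      simp only [Matrix.transpose_apply, Matrix.of_apply]
      congr 1
      ring
    rw [Finset.sum_eq_zero] at hbil
    · have hsinj : Function.Injective s := by
        intro i j hij
        rw [hs, hs] at hij
        exact e.injective (by exact_mod_cast hij)
      have h5 : (Matrix.of fun i j : Fin m => if s i = s j then (((m + n : ℕ) : ℝ) + 1) / 2 else 0) =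
          Matrix.diagonal (fun _ => (((m + n : ℕ) : ℝ) + 1) / 2) := by
        ext i j
        rw [Matrix.of_apply, Matrix.diagonal_apply]
        by_cases hij : i = j
        · subst hij; simp
        · rw [if_neg (fun h => hij (hsinj h)), if_neg hij]
      rw [h5, Matrix.det_diagonal] at hbil
      have h6 : ∏ _i : Fin m, (((m + n : ℕ) : ℝ) + 1) / 2 ≠ 0 := by
        refine Finset.prod_ne_zero_iff.mpr fun i _ => ?_
        positivity
      exact h6 hbil.symm
    · intro t _
      rw [hsymm, hall]
      · ring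
      · intro i; omega
      · intro i
        have := (t i).2
        push_cast
        omega
  · -- the arithmetic condition implies nonsingularity
    rintro ⟨hmo, hno, hp⟩ hdet
    obtain ⟨v, hv0, hv⟩ := Matrix.exists_mulVec_eq_zero_iff.mpr hdet
    obtain ⟨c, hc⟩ : ∃ c : (Fin m → ℤ) → ℝ, ∀ s, c s = ∑ f : L m n, v f * slater (m + n + 1) s (pos f) :=
      ⟨_, fun _ => rfl⟩
    -- λ_s c_s = 0
    have hlc : ∀ s : Fin m → ℤ, (∑ i, 2 * Real.cos (Real.pi * s i / (m + n + 1 : ℕ))) * c s = 0 := by
      intro s
      have h1 : (∑ i, 2 * Real.cos (Real.pi * s i / (m + n + 1 : ℕ))) * c s =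
          dotProduct v (((SimpleGraph.hasse (L m n)).adjMatrix ℝ).mulVec
            (fun g => slater (m + n + 1) s (pos g))) := by
        rw [hc, Finset.mul_sum, dotProduct]
        refine Finset.sum_congr rfl fun f _ => ?_
        rw [slater_eigenvector s f]
        ring
      rw [h1, Matrix.dotProduct_mulVec]
      have h2 : Matrix.vecMul v ((SimpleGraph.hasse (L m n)).adjMatrix ℝ) = 0 := by
        rw [← Matrix.mulVec_transpose, SimpleGraph.transpose_adjMatrix]
        exact hv
      rw [h2, zero_dotProduct]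
    -- c vanishes at all tuples
    have hc0 : ∀ s : Fin m → Fin (m + n), c (fun i => ((s i : ℕ) + 1 : ℤ)) = 0 := by
      intro s
      by_contra hne
      have hinj : Function.Injective (fun i => (((s i : ℕ) : ℤ) + 1 : ℤ)) := by
        by_contra hcon
        apply hne
        rw [hc]
        refine Finset.sum_eq_zero fun f _ => ?_
        rw [slater_zero_of_not_injective_left _ _ _ hcon, mul_zero]
      have h1 := (mul_eq_zero.mp (hlc (fun i => ((s i : ℕ) + 1 : ℤ)))).resolve_right hne
      rw [← Finset.mul_sum] at h1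
      have h2 := (mul_eq_zero.mp h1).resolve_left (by norm_num)
      have hinj' : Function.Injective (fun i => (s i : ℕ) + 1) := by
        intro i j hij
        apply hinj
        simp only at hij ⊢
        exact_mod_cast hij
      refine no_zero_sum m n hmo hno hp (Finset.univ.image (fun i => (s i : ℕ) + 1)) ?_ ?_ ?_
      · intro j hj
        obtain ⟨i, -, rfl⟩ := Finset.mem_image.mp hj
        have := (s i).2
        omega
      · rw [Finset.card_image_of_injective _ hinj', Finset.card_univ, Fintype.card_fin]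
      · rw [Finset.sum_image (fun i _ j _ hij => hinj' hij)]
        rw [← h2]
        refine Finset.sum_congr rfl fun i _ => ?_
        push_cast
        rfl
    apply hv0
    funext f0
    have hx0 : ∀ f : L m n, ∀ i, 1 ≤ pos f i ∧ pos f i ≤ (m + n : ℕ) := by
      intro f i
      have h1 := pos_pos f i
      have h2 := pos_le f i
      push_cast
      exact ⟨h1, h2⟩
    have hkey : ∑ s : Fin m → Fin (m + n),
        (∏ i, Real.sin (Real.pi * (((s i : ℕ) + 1 : ℤ) : ℝ) * pos f0 i / (m + n + 1 : ℕ))) *
        c (fun i => ((s i : ℕ) + 1 : ℤ)) = 0 := by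
      refine Finset.sum_eq_zero fun s _ => ?_
      rw [hc0, mul_zero]
    have hkey2 : ∑ s : Fin m → Fin (m + n),
        (∏ i, Real.sin (Real.pi * (((s i : ℕ) + 1 : ℤ) : ℝ) * pos f0 i / (m + n + 1 : ℕ))) *
        c (fun i => ((s i : ℕ) + 1 : ℤ)) =
        ∑ f : L m n, v f * (Matrix.of fun i j : Fin m => if pos f0 i = pos f j then
          (((m + n : ℕ) : ℝ) + 1) / 2 else 0).det := by
      simp only [hc, Finset.mul_sum]
      rw [Finset.sum_comm]
      refine Finset.sum_congr rfl fun f _ => ?_
      rw [← slater_bilinear (m + n) (pos f0) (pos f) (hx0 f0) (hx0 f), Finset.mul_sum]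
      refine Finset.sum_congr rfl fun s _ => ?_
      ring
    rw [hkey, Finset.sum_eq_single f0] at hkey2
    · have h5 : (Matrix.of fun i j : Fin m => if pos f0 i = pos f0 j then
            (((m + n : ℕ) : ℝ) + 1) / 2 else 0) =
          Matrix.diagonal (fun _ => (((m + n : ℕ) : ℝ) + 1) / 2) := by
        ext i j
        rw [Matrix.of_apply, Matrix.diagonal_apply]
        by_cases hij : i = j
        · subst hij; simp
        · rw [if_neg (fun h => hij ((pos_strictAnti f0).injective h)), if_neg hij]
      rw [h5, Matrix.det_diagonal] at hkey2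
      have h6 : ∏ _i : Fin m, (((m + n : ℕ) : ℝ) + 1) / 2 ≠ 0 := by
        refine Finset.prod_ne_zero_iff.mpr fun i _ => ?_
        positivity
      have := (mul_eq_zero.mp hkey2.symm).resolve_right h6
      simpa using this
    · intro f _ hne
      have : ∃ i, ∀ j, pos f0 i ≠ pos f j := by
        by_contra hcon
        push Not at hcon
        exact hne (pos_injective (eq_of_strictAnti _ _ (pos_strictAnti f0) (pos_strictAnti f) hcon)).symm
      obtain ⟨i, hi⟩ := this
      rw [Matrix.det_eq_zero_of_row_eq_zero i (fun j => by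
        rw [Matrix.of_apply, if_neg (hi j)]), mul_zero]
    · intro h
      exact absurd (Finset.mem_univ _) h

end Pool.Agent.Work.MP_34e3ac_co
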